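import Mathlib

/-!
# Initial data on open subsets of `ℝ³`, apparent horizons, Schwarzschild ends

All tensors are given by their components in the standard coordinates of `ℝ³`.
-/

namespace Pool.Agent.Lib.MP_c642b3_mp

open scoped ContDiff

/-- Euclidean 3-space. -/
abbrev E3 := EuclideanSpace ℝ (Fin 3)

/-- Fields of `3 × 3` matrices (components of covariant 2-tensors). -/
abbrev TF := E3 → Matrix (Fin 3) (Fin 3) ℝ

/-- Partial derivative `∂_i f`. -/
noncomputable def pd (i : Fin 3) (f : E3 → ℝ) (x : E3) : ℝ :=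
  fderiv ℝ f x (EuclideanSpace.single i 1)

/-- Christoffel symbols `Γ^k_{ij} = ½ g^{kl} (∂_i g_{jl} + ∂_j g_{il} - ∂_l g_{ij})`. -/
noncomputable def christoffel (g : TF) (k i j : Fin 3) (x : E3) : ℝ :=
  (1 / 2) * ∑ l, (g x)⁻¹ k l *
    (pd i (fun y => g y j l) x + pd j (fun y => g y i l) x - pd l (fun y => g y i j) x)

/-- Ricci tensor
`R_{ij} = ∂_k Γ^k_{ij} - ∂_j Γ^k_{ik} + Γ^k_{kl} Γ^l_{ij} - Γ^k_{jl} Γ^l_{ik}`. -/
noncomputable def ricci (g : TF) (i j : Fin 3) (x : E3) : ℝ :=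
  ∑ k, (pd k (christoffel g k i j) x - pd j (christoffel g k i k) x) +
    ∑ k, ∑ l, (christoffel g k k l x * christoffel g l i j x -
      christoffel g k j l x * christoffel g l i k x)

/-- Scalar curvature `R_g = g^{ij} R_{ij}`. -/
noncomputable def scal (g : TF) (x : E3) : ℝ := ∑ i, ∑ j, (g x)⁻¹ i j * ricci g i j x

/-- Trace `tr_g h = g^{ij} h_{ij}`. -/
noncomputable def trg (g h : TF) (x : E3) : ℝ := ∑ i, ∑ j, (g x)⁻¹ i j * h x i j

/-- Squared norm `|h|²_g = g^{ik} g^{jl} h_{ij} h_{kl}`. -/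
noncomputable def normSq2 (g h : TF) (x : E3) : ℝ :=
  ∑ i, ∑ j, ∑ k, ∑ l, (g x)⁻¹ i k * (g x)⁻¹ j l * h x i j * h x k l

/-- Covariant derivative `∇_k h_{ij} = ∂_k h_{ij} - Γ^l_{ki} h_{lj} - Γ^l_{kj} h_{il}`. -/
noncomputable def cov (g h : TF) (k i j : Fin 3) (x : E3) : ℝ :=
  pd k (fun y => h y i j) x - ∑ l, (christoffel g l k i x * h x l j + christoffel g l k j x * h x i l)

/-- Divergence `(div_g h)_j = g^{ik} ∇_k h_{ij}`. -/
noncomputable def divg (g h : TF) (j : Fin 3) (x : E3) : ℝ :=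
  ∑ i, ∑ k, (g x)⁻¹ i k * cov g h k i j x

/-- Energy density `μ = ½ (R_g - |h|² + (tr h)²)`. -/
noncomputable def mu (g h : TF) (x : E3) : ℝ :=
  (1 / 2) * (scal g x - normSq2 g h x + (trg g h x) ^ 2)

/-- Momentum density `J_j = (div_g h)_j - ∂_j (tr_g h)`. -/
noncomputable def mom (g h : TF) (j : Fin 3) (x : E3) : ℝ :=
  divg g h j x - pd j (trg g h) x

/-- Norm `|J|_g = (g^{ij} J_i J_j)^{1/2}`. -/
noncomputable def momNorm (g h : TF) (x : E3) : ℝ :=
  Real.sqrt (∑ i, ∑ j, (g x)⁻¹ i j * mom g h i x * mom g h j x)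

/-- Dominant energy condition `μ ≥ |J|` at the point `x`. -/
def DEC (g h : TF) (x : E3) : Prop := momNorm g h x ≤ mu g h x

/-- `|∇f|²_g = g^{ij} ∂_i f ∂_j f`. -/
noncomputable def gradSq (g : TF) (f : E3 → ℝ) (x : E3) : ℝ :=
  ∑ i, ∑ j, (g x)⁻¹ i j * pd i f x * pd j f x

/-- `g`-unit normal `ν^i = g^{ij} ∂_j f / |∇f|_g` of the level sets of `f`, pointing to
increasing values of `f`. -/
noncomputable def nrm (g : TF) (f : E3 → ℝ) (i : Fin 3) (x : E3) : ℝ :=
  (∑ j, (g x)⁻¹ i j * pd j f x) / Real.sqrt (gradSq g f x)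

/-- `g^{ij} - ν^i ν^j`. -/
noncomputable def proj (g : TF) (f : E3 → ℝ) (i j : Fin 3) (x : E3) : ℝ :=
  (g x)⁻¹ i j - nrm g f i x * nrm g f j x

/-- Mean curvature of the level set of `f` through `x` with respect to `ν`
(positive for large round spheres and `f = |x|`):
`H = (g^{ij} - ν^i ν^j) (∂_i ∂_j f - Γ^k_{ij} ∂_k f) / |∇f|_g`. -/
noncomputable def meanCurv (g : TF) (f : E3 → ℝ) (x : E3) : ℝ :=
  (∑ i, ∑ j, proj g f i j x * (pd i (pd j f) x - ∑ k, christoffel g k i j x * pd k f x)) /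
    Real.sqrt (gradSq g f x)

/-- Trace of `h` over the tangent plane of the level set: `(g^{ij} - ν^i ν^j) h_{ij}`. -/
noncomputable def trS (g h : TF) (f : E3 → ℝ) (x : E3) : ℝ :=
  ∑ i, ∑ j, proj g f i j x * h x i j

/-- Smooth initial data `(g,h)` on `ℝ³ ∖ C` satisfying `μ ≥ |J|`. -/
structure IsData (C : Set E3) (g h : TF) : Prop where
  g_smooth : ∀ i j, ContDiffOn ℝ ∞ (fun x => g x i j) Cᶜ
  h_smooth : ∀ i j, ContDiffOn ℝ ∞ (fun x => h x i j) Cᶜ
  g_pos : ∀ x ∉ C, (g x).PosDef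
  h_symm : ∀ x ∉ C, (h x).IsSymm
  dec : ∀ x ∉ C, DEC g h x

/-- The time-symmetric Schwarzschild slice of mass `m` in isotropic coordinates,
`g = (1 + m / (2|x|))⁴ δ`. -/
noncomputable def schw (m : ℝ) : TF := fun x =>
  (1 + m / (2 * ‖x‖)) ^ 4 • (1 : Matrix (Fin 3) (Fin 3) ℝ)

/-- Near infinity the data are exactly the time-symmetric Schwarzschild data of mass `M`, in the
coordinates `y = c x` for some constant `c > 0` (so `g` is the pullback `c² schw M (c x)` and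
`h = 0`). In particular the total mass of this end is `M`. -/
def SchwarzschildEnd (g h : TF) (M : ℝ) : Prop :=
  ∃ c : ℝ, 0 < c ∧ ∃ R : ℝ, ∀ x : E3, R ≤ ‖x‖ → g x = c ^ 2 • schw M (c • x) ∧ h x = 0

/-- `f` is a defining function of a smooth closed surface `S = {f = 0}` in `ℝ³ ∖ C`:
the inside `{f < 0}` contains a neighbourhood of `C` (all ends except the one at infinity),
the outside `{f > 0}` contains a neighbourhood of infinity. -/
structure IsSurface (C : Set E3) (f : E3 → ℝ) : Prop where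
  smooth : ContDiffOn ℝ ∞ f Cᶜ
  regular : ∀ x ∉ C, f x = 0 → fderiv ℝ f x ≠ 0
  inside : ∃ V : Set E3, IsOpen V ∧ C ⊆ V ∧ ∀ x ∈ V, x ∉ C → f x < 0
  outside : ∃ R : ℝ, ∀ x : E3, R < ‖x‖ → 0 < f x

/-- The surface `{f = 0}` is an apparent horizon: `H_S = tr_S h` at every point of it. -/
def IsApparentHorizon (C : Set E3) (g h : TF) (f : E3 → ℝ) : Prop :=
  IsSurface C f ∧ ∀ x ∉ C, f x = 0 → meanCurv g f x = trS g h f x

end Pool.Agent.Lib.MP_c642b3_mp
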