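import Mathlib
import Pool.Agent.Lib.MP_c642b3_mp.Defs

namespace Pool.Agent.Lib.MP_c642b3_mp

open scoped InnerProductSpace ContDiff

/-! ### calculus of partial derivatives -/

/-- `f` has gradient `d` at `x` -/
def HasPD (f : E3 → ℝ) (d : Fin 3 → ℝ) (x : E3) : Prop :=
  HasFDerivAt f (∑ i, d i • (EuclideanSpace.proj i : E3 →L[ℝ] ℝ)) x

theorem HasPD.pd {f : E3 → ℝ} {d : Fin 3 → ℝ} {x : E3} (h : HasPD f d x) (i : Fin 3) :
    pd i f x = d i := by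
  unfold MP_c642b3_mp.pd
  rw [HasFDerivAt.fderiv h]
  simp

theorem HasPD.congr {f f' : E3 → ℝ} {d : Fin 3 → ℝ} {x : E3} (h : HasPD f d x)
    (hf : f' =ᶠ[nhds x] f) : HasPD f' d x :=
  HasFDerivAt.congr_of_eventuallyEq h hf

theorem hasPD_const (c : ℝ) (x : E3) : HasPD (fun _ => c) (fun _ => 0) x := by
  unfold HasPD
  simpa using hasFDerivAt_const c x

theorem hasPD_coord (j : Fin 3) (x : E3) :
    HasPD (fun y => y j) (fun i => if i = j then 1 else 0) x := by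
  unfold HasPD
  have h : (∑ i, (if i = j then (1 : ℝ) else 0) • (EuclideanSpace.proj i : E3 →L[ℝ] ℝ)) =
      EuclideanSpace.proj j := by
    ext v; simp
  rw [h]
  exact (EuclideanSpace.proj j : E3 →L[ℝ] ℝ).hasFDerivAt

theorem HasPD.add {f f' : E3 → ℝ} {d d' : Fin 3 → ℝ} {x : E3} (h : HasPD f d x)
    (h' : HasPD f' d' x) : HasPD (fun y => f y + f' y) (fun i => d i + d' i) x := by
  unfold HasPD at *
  have e : (∑ i, (d i + d' i) • (EuclideanSpace.proj i : E3 →L[ℝ] ℝ)) =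
    (∑ i, d i • (EuclideanSpace.proj i : E3 →L[ℝ] ℝ)) + ∑ i, d' i • (EuclideanSpace.proj i : E3 →L[ℝ] ℝ) := by
    rw [← Finset.sum_add_distrib]
    exact Finset.sum_congr rfl (fun i _ => add_smul _ _ _)
  rw [e]
  exact HasFDerivAt.add h h'

theorem HasPD.sub {f f' : E3 → ℝ} {d d' : Fin 3 → ℝ} {x : E3} (h : HasPD f d x)
    (h' : HasPD f' d' x) : HasPD (fun y => f y - f' y) (fun i => d i - d' i) x := by
  unfold HasPD at *
  have e : (∑ i, (d i - d' i) • (EuclideanSpace.proj i : E3 →L[ℝ] ℝ)) =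
    (∑ i, d i • (EuclideanSpace.proj i : E3 →L[ℝ] ℝ)) - ∑ i, d' i • (EuclideanSpace.proj i : E3 →L[ℝ] ℝ) := by
    rw [← Finset.sum_sub_distrib]
    exact Finset.sum_congr rfl (fun i _ => sub_smul _ _ _)
  rw [e]
  exact HasFDerivAt.sub h h'

theorem HasPD.mul {f f' : E3 → ℝ} {d d' : Fin 3 → ℝ} {x : E3} (h : HasPD f d x)
    (h' : HasPD f' d' x) : HasPD (fun y => f y * f' y) (fun i => d i * f' x + f x * d' i) x := by
  unfold HasPD at *
  have e : (∑ i, (d i * f' x + f x * d' i) • (EuclideanSpace.proj i : E3 →L[ℝ] ℝ)) =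
    f x • (∑ i, d' i • (EuclideanSpace.proj i : E3 →L[ℝ] ℝ)) + f' x • ∑ i, d i • (EuclideanSpace.proj i : E3 →L[ℝ] ℝ) := by
    rw [Finset.smul_sum, Finset.smul_sum, ← Finset.sum_add_distrib]
    refine Finset.sum_congr rfl (fun i _ => ?_)
    rw [smul_smul, smul_smul, ← add_smul]
    congr 1
    ring
  rw [e]
  exact HasFDerivAt.mul h h'

theorem hasPD_logNorm {x : E3} (hx : x ≠ 0) :
    HasPD (fun y => Real.log ‖y‖) (fun i => (‖x‖ ^ 2)⁻¹ * x i) x := by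
  unfold HasPD
  have h1 : HasFDerivAt (fun y : E3 => ‖y‖ ^ 2) (2 • (innerSL ℝ x)) x :=
    (hasStrictFDerivAt_norm_sq x).hasFDerivAt
  have h2 : HasFDerivAt (fun y : E3 => Real.log (‖y‖ ^ 2)) ((‖x‖ ^ 2)⁻¹ • (2 • (innerSL ℝ x))) x := by
    apply HasFDerivAt.log h1
    have : 0 < ‖x‖ := norm_pos_iff.mpr hx
    positivity
  have h3 : HasFDerivAt (fun y : E3 => (1 / 2 : ℝ) * Real.log (‖y‖ ^ 2))
      ((1 / 2 : ℝ) • ((‖x‖ ^ 2)⁻¹ • (2 • (innerSL ℝ x)))) x := h2.const_mul _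
  have e1 : (fun y : E3 => Real.log ‖y‖) = (fun y : E3 => (1 / 2 : ℝ) * Real.log (‖y‖ ^ 2)) := by
    ext y
    rw [Real.log_pow]
    push_cast
    ring
  rw [e1]
  refine h3.congr_fderiv ?_
  ext v
  simp [Fin.sum_univ_three, PiLp.inner_apply]
  ring

theorem hasPD_rad {F : ℝ → ℝ} {F' : ℝ} {x : E3} (hx : x ≠ 0)
    (hF : HasDerivAt F F' (Real.log ‖x‖)) :
    HasPD (fun y => F (Real.log ‖y‖)) (fun i => F' * ((‖x‖ ^ 2)⁻¹ * x i)) x := by
  have h := hasPD_logNorm hx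
  unfold HasPD at *
  have h2 := HasDerivAt.comp_hasFDerivAt x hF h
  refine h2.congr_fderiv ?_
  rw [Finset.smul_sum]
  refine Finset.sum_congr rfl (fun i _ => ?_)
  rw [smul_smul]


/-! ### conformally flat rotationally symmetric metrics -/

/-- Kronecker delta -/
def dl (i j : Fin 3) : ℝ := if i = j then 1 else 0

/-- `e^{2 ψ(log ρ)} δ` -/
noncomputable def cMetric (ψ : ℝ → ℝ) : TF := fun x =>
  Matrix.of (fun i j => Real.exp (2 * ψ (Real.log ‖x‖)) * dl i j)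

/-- radial/tangential tensor `A(log ρ) n_i n_j + B(log ρ) (δ_ij - n_i n_j)` -/
noncomputable def radH (A B : ℝ → ℝ) : TF := fun x =>
  Matrix.of (fun i j => B (Real.log ‖x‖) * dl i j +
    (A (Real.log ‖x‖) - B (Real.log ‖x‖)) * ((‖x‖ ^ 2)⁻¹ * (x i * x j)))

theorem cMetric_inv (ψ : ℝ → ℝ) (x : E3) (i j : Fin 3) :
    (cMetric ψ x)⁻¹ i j = Real.exp (-(2 * ψ (Real.log ‖x‖))) * dl i j := by
  have h : (cMetric ψ x)⁻¹ =
      Matrix.of (fun i j => Real.exp (-(2 * ψ (Real.log ‖x‖))) * dl i j) := by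
    apply Matrix.inv_eq_right_inv
    ext i j
    rw [Matrix.mul_apply]
    simp only [cMetric, Matrix.of_apply, dl, Matrix.one_apply]
    rw [Finset.sum_eq_single i]
    · simp only [if_true, mul_one]
      rw [← mul_assoc, ← Real.exp_add, add_neg_cancel, Real.exp_zero, one_mul]
    · intro b _ hb
      simp [hb.symm]
    · simp
  rw [h, Matrix.of_apply]

theorem norm_sq_eq (x : E3) : ‖x‖ ^ 2 = x 0 ^ 2 + x 1 ^ 2 + x 2 ^ 2 := by
  rw [EuclideanSpace.norm_sq_eq, Fin.sum_univ_three]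
  simp

theorem exp_neg_two_log {x : E3} (hx : x ≠ 0) : Real.exp (-(2 * Real.log ‖x‖)) = (‖x‖ ^ 2)⁻¹ := by
  have h : 0 < ‖x‖ := norm_pos_iff.mpr hx
  rw [Real.exp_neg]
  congr 1
  rw [show 2 * Real.log ‖x‖ = Real.log (‖x‖ ^ 2) by rw [Real.log_pow]; push_cast; ring]
  exact Real.exp_log (by positivity)

theorem hasPD_expmetric {ψ : ℝ → ℝ} {x : E3} (hx : x ≠ 0) (hψ : Differentiable ℝ ψ) :
    HasPD (fun y => Real.exp (2 * ψ (Real.log ‖y‖)))
      (fun i => (2 * deriv ψ (Real.log ‖x‖) * Real.exp (2 * ψ (Real.log ‖x‖))) *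
        ((‖x‖ ^ 2)⁻¹ * x i)) x := by
  have h1 : HasDerivAt ψ (deriv ψ (Real.log ‖x‖)) (Real.log ‖x‖) := (hψ _).hasDerivAt
  have h2 : HasDerivAt (fun s => Real.exp (2 * ψ s))
      (2 * deriv ψ (Real.log ‖x‖) * Real.exp (2 * ψ (Real.log ‖x‖))) (Real.log ‖x‖) := by
    have := (h1.const_mul 2).exp
    convert this using 1
    ring
  exact hasPD_rad hx h2

theorem christoffel_cMetric {ψ : ℝ → ℝ} {x : E3} (hx : x ≠ 0) (hψ : Differentiable ℝ ψ)
    (k i j : Fin 3) :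
    christoffel (cMetric ψ) k i j x = deriv ψ (Real.log ‖x‖) * ((‖x‖ ^ 2)⁻¹ *
      (dl j k * x i + dl i k * x j - dl i j * x k)) := by
  unfold christoffel
  have hp : ∀ a b c : Fin 3, pd a (fun y => cMetric ψ y b c) x =
      (2 * deriv ψ (Real.log ‖x‖) * Real.exp (2 * ψ (Real.log ‖x‖))) *
        ((‖x‖ ^ 2)⁻¹ * x a) * dl b c := by
    intro a b c
    have h := (hasPD_expmetric hx hψ).mul (hasPD_const (dl b c) x)
    have h2 := HasPD.pd h a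
    simp only [mul_zero, add_zero] at h2
    exact h2
  simp only [hp, cMetric_inv]
  rw [Finset.sum_eq_single k]
  · simp only [dl, if_true]
    have he : Real.exp (-(2 * ψ (Real.log ‖x‖))) * Real.exp (2 * ψ (Real.log ‖x‖)) = 1 := by
      rw [← Real.exp_add]; simp
    generalize Real.exp (-(2 * ψ (Real.log ‖x‖))) = e1 at *
    generalize Real.exp (2 * ψ (Real.log ‖x‖)) = e2 at *
    generalize (if j = k then (1:ℝ) else 0) = d1
    generalize (if i = k then (1:ℝ) else 0) = d2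
    generalize (if i = j then (1:ℝ) else 0) = d3
    linear_combination (deriv ψ (Real.log ‖x‖) * ((‖x‖ ^ 2)⁻¹ *
      (d1 * x i + d2 * x j - d3 * x k))) * he
  · intro b _ hb
    simp [dl, hb.symm]
  · simp

/-- the radial coefficient `G = ψ' e^{-2t}` -/
noncomputable def GG (ψ : ℝ → ℝ) (t : ℝ) : ℝ := deriv ψ t * Real.exp (-(2 * t))

theorem christoffel_cMetric' {ψ : ℝ → ℝ} (hψ : Differentiable ℝ ψ)
    (k i j : Fin 3) {x : E3} (hx : x ≠ 0) :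
    christoffel (cMetric ψ) k i j x = GG ψ (Real.log ‖x‖) *
      (dl j k * x i + dl i k * x j - dl i j * x k) := by
  rw [christoffel_cMetric hx hψ, GG, exp_neg_two_log hx]
  ring

theorem hasPD_christoffel {ψ : ℝ → ℝ} (hψ : Differentiable ℝ ψ)
    (hψ2 : Differentiable ℝ (deriv ψ)) (k i j : Fin 3) {x : E3} (hx : x ≠ 0) :
    HasPD (christoffel (cMetric ψ) k i j) (fun l =>
      (deriv (deriv ψ) (Real.log ‖x‖) - 2 * deriv ψ (Real.log ‖x‖)) * (‖x‖ ^ 2)⁻¹ *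
        ((‖x‖ ^ 2)⁻¹ * x l) * (dl j k * x i + dl i k * x j - dl i j * x k) +
      deriv ψ (Real.log ‖x‖) * (‖x‖ ^ 2)⁻¹ * (dl j k * dl l i + dl i k * dl l j - dl i j * dl l k)) x := by
  have hG : HasDerivAt (GG ψ)
      ((deriv (deriv ψ) (Real.log ‖x‖) - 2 * deriv ψ (Real.log ‖x‖)) * (‖x‖ ^ 2)⁻¹)
      (Real.log ‖x‖) := by
    have h1 : HasDerivAt (deriv ψ) (deriv (deriv ψ) (Real.log ‖x‖)) (Real.log ‖x‖) :=
      (hψ2 _).hasDerivAt
    have h2 : HasDerivAt (fun t : ℝ => Real.exp (-(2 * t)))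
        (-2 * Real.exp (-(2 * Real.log ‖x‖))) (Real.log ‖x‖) := by
      have h3 : HasDerivAt (fun t : ℝ => -(2 * t)) (-2) (Real.log ‖x‖) := by
        have h5 := ((hasDerivAt_id (Real.log ‖x‖)).const_mul (-2))
        simp only [mul_one] at h5
        refine h5.congr_of_eventuallyEq (Filter.Eventually.of_forall (fun t => ?_))
        simp
      have := h3.exp
      convert this using 1
      ring
    have h4 := h1.mul h2
    rw [exp_neg_two_log hx] at h4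
    have : GG ψ = (fun t => deriv ψ t * Real.exp (-(2 * t))) := rfl
    rw [this]
    refine h4.congr_deriv ?_
    ring
  have h1 := hasPD_rad hx hG
  have hlin : HasPD (fun y : E3 => dl j k * y i + dl i k * y j - dl i j * y k)
      (fun l => dl j k * dl l i + dl i k * dl l j - dl i j * dl l k) x := by
    have ha := (hasPD_const (dl j k) x).mul (hasPD_coord i x)
    have hb := (hasPD_const (dl i k) x).mul (hasPD_coord j x)
    have hc := (hasPD_const (dl i j) x).mul (hasPD_coord k x)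
    have h := (ha.add hb).sub hc
    simp only [zero_mul, zero_add] at h
    exact h
  have h2 := h1.mul hlin
  have h3 : HasPD (christoffel (cMetric ψ) k i j) _ x := h2.congr (by
    have : ∀ᶠ y in nhds x, y ≠ 0 := isOpen_ne.eventually_mem hx
    filter_upwards [this] with y hy
    exact christoffel_cMetric' hψ k i j hy)
  have e : (fun l => (deriv (deriv ψ) (Real.log ‖x‖) - 2 * deriv ψ (Real.log ‖x‖)) * (‖x‖ ^ 2)⁻¹ *
        ((‖x‖ ^ 2)⁻¹ * x l) * (dl j k * x i + dl i k * x j - dl i j * x k) +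
      GG ψ (Real.log ‖x‖) * (dl j k * dl l i + dl i k * dl l j - dl i j * dl l k)) =
      (fun l => (deriv (deriv ψ) (Real.log ‖x‖) - 2 * deriv ψ (Real.log ‖x‖)) * (‖x‖ ^ 2)⁻¹ *
        ((‖x‖ ^ 2)⁻¹ * x l) * (dl j k * x i + dl i k * x j - dl i j * x k) +
      deriv ψ (Real.log ‖x‖) * (‖x‖ ^ 2)⁻¹ * (dl j k * dl l i + dl i k * dl l j - dl i j * dl l k)) := by
    ext l
    rw [GG, exp_neg_two_log hx]
  rw [← e]
  exact h3

theorem scal_cMetric {ψ : ℝ → ℝ} (hψ : Differentiable ℝ ψ)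
    (hψ2 : Differentiable ℝ (deriv ψ)) {x : E3} (hx : x ≠ 0) :
    scal (cMetric ψ) x = -Real.exp (-(2 * ψ (Real.log ‖x‖))) * (‖x‖ ^ 2)⁻¹ *
      (4 * deriv (deriv ψ) (Real.log ‖x‖) + 4 * deriv ψ (Real.log ‖x‖) +
        2 * (deriv ψ (Real.log ‖x‖)) ^ 2) := by
  have hE : (‖x‖ ^ 2)⁻¹ * (x 0 ^ 2 + x 1 ^ 2 + x 2 ^ 2) = 1 := by
    rw [← norm_sq_eq]
    have h : 0 < ‖x‖ := norm_pos_iff.mpr hx
    field_simp
  unfold scal ricci
  simp only [cMetric_inv, (hasPD_christoffel hψ hψ2 _ _ _ hx).pd, christoffel_cMetric hx hψ]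
  generalize Real.exp (-(2 * ψ (Real.log ‖x‖))) = e
  generalize deriv (deriv ψ) (Real.log ‖x‖) = p2
  generalize deriv ψ (Real.log ‖x‖) = p1
  generalize (‖x‖ ^ 2)⁻¹ = E at *
  simp only [Fin.sum_univ_three, dl]
  simp
  linear_combination (e * (-4 * (p2 - 2 * p1) * E - 2 * p1 ^ 2 * E)) * hE

theorem trg_radH {ψ A B : ℝ → ℝ} {x : E3} (hx : x ≠ 0) :
    trg (cMetric ψ) (radH A B) x = Real.exp (-(2 * ψ (Real.log ‖x‖))) *
      (A (Real.log ‖x‖) + 2 * B (Real.log ‖x‖)) := by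
  have hE : (‖x‖ ^ 2)⁻¹ * (x 0 ^ 2 + x 1 ^ 2 + x 2 ^ 2) = 1 := by
    rw [← norm_sq_eq]
    have h : 0 < ‖x‖ := norm_pos_iff.mpr hx
    field_simp
  unfold trg radH
  simp only [cMetric_inv, Matrix.of_apply, Fin.sum_univ_three, dl]
  generalize Real.exp (-(2 * ψ (Real.log ‖x‖))) = e
  generalize (‖x‖ ^ 2)⁻¹ = E at *
  generalize A (Real.log ‖x‖) = a
  generalize B (Real.log ‖x‖) = b
  simp
  linear_combination (e * (a - b)) * hE

theorem normSq2_radH {ψ A B : ℝ → ℝ} {x : E3} (hx : x ≠ 0) :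
    normSq2 (cMetric ψ) (radH A B) x = (Real.exp (-(2 * ψ (Real.log ‖x‖)))) ^ 2 *
      ((A (Real.log ‖x‖)) ^ 2 + 2 * (B (Real.log ‖x‖)) ^ 2) := by
  have hE : (‖x‖ ^ 2)⁻¹ * (x 0 ^ 2 + x 1 ^ 2 + x 2 ^ 2) = 1 := by
    rw [← norm_sq_eq]
    have h : 0 < ‖x‖ := norm_pos_iff.mpr hx
    field_simp
  unfold normSq2 radH
  simp only [cMetric_inv, Matrix.of_apply, Fin.sum_univ_three, dl]
  generalize Real.exp (-(2 * ψ (Real.log ‖x‖))) = e
  generalize (‖x‖ ^ 2)⁻¹ = E at *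
  generalize A (Real.log ‖x‖) = a
  generalize B (Real.log ‖x‖) = b
  simp
  linear_combination (e ^ 2 * (2 * b * (a - b) + (a - b) ^ 2 * (E * (x 0 ^ 2 + x 1 ^ 2 + x 2 ^ 2) + 1))) * hE


theorem hasPD_invNormSq {x : E3} (hx : x ≠ 0) :
    HasPD (fun y => (‖y‖ ^ 2)⁻¹) (fun l => (-2 * (‖x‖ ^ 2)⁻¹) * ((‖x‖ ^ 2)⁻¹ * x l)) x := by
  have h2 : HasDerivAt (fun t : ℝ => Real.exp (-(2 * t)))
      (-2 * (‖x‖ ^ 2)⁻¹) (Real.log ‖x‖) := by
    have h3 : HasDerivAt (fun t : ℝ => -(2 * t)) (-2) (Real.log ‖x‖) := by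
      have h5 := ((hasDerivAt_id (Real.log ‖x‖)).const_mul (-2))
      simp only [mul_one] at h5
      refine h5.congr_of_eventuallyEq (Filter.Eventually.of_forall (fun t => ?_))
      simp
    have := h3.exp
    rw [exp_neg_two_log hx] at this
    refine this.congr_deriv ?_
    ring
  have h := hasPD_rad hx h2
  refine h.congr ?_
  have : ∀ᶠ y in nhds x, y ≠ 0 := isOpen_ne.eventually_mem hx
  filter_upwards [this] with y hy
  exact (exp_neg_two_log hy).symm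

theorem hasPD_radH {A B : ℝ → ℝ} (hA : Differentiable ℝ A) (hB : Differentiable ℝ B)
    (i j : Fin 3) {x : E3} (hx : x ≠ 0) :
    HasPD (fun y => radH A B y i j) (fun l =>
      deriv B (Real.log ‖x‖) * ((‖x‖ ^ 2)⁻¹ * x l) * dl i j +
      ((deriv A (Real.log ‖x‖) - deriv B (Real.log ‖x‖)) * ((‖x‖ ^ 2)⁻¹ * x l) *
        ((‖x‖ ^ 2)⁻¹ * (x i * x j)) +
      (A (Real.log ‖x‖) - B (Real.log ‖x‖)) *
        ((-2 * (‖x‖ ^ 2)⁻¹) * ((‖x‖ ^ 2)⁻¹ * x l) * (x i * x j) +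
          (‖x‖ ^ 2)⁻¹ * (dl l i * x j + x i * dl l j)))) x := by
  have hB1 := hasPD_rad hx (hB (Real.log ‖x‖)).hasDerivAt
  have hA1 := hasPD_rad hx (hA (Real.log ‖x‖)).hasDerivAt
  have h1 := hB1.mul (hasPD_const (dl i j) x)
  have h2 := (hA1.sub hB1).mul ((hasPD_invNormSq hx).mul ((hasPD_coord i x).mul (hasPD_coord j x)))
  have h3 := h1.add h2
  have e : (fun l =>
      (deriv B (Real.log ‖x‖) * ((‖x‖ ^ 2)⁻¹ * x l) * dl i j + B (Real.log ‖x‖) * 0) +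
      ((deriv A (Real.log ‖x‖) * ((‖x‖ ^ 2)⁻¹ * x l) - deriv B (Real.log ‖x‖) * ((‖x‖ ^ 2)⁻¹ * x l)) *
        ((‖x‖ ^ 2)⁻¹ * (x i * x j)) +
      (A (Real.log ‖x‖) - B (Real.log ‖x‖)) *
        ((-2 * (‖x‖ ^ 2)⁻¹) * ((‖x‖ ^ 2)⁻¹ * x l) * (x i * x j) +
          (‖x‖ ^ 2)⁻¹ * ((if l = i then 1 else 0) * x j + x i * (if l = j then 1 else 0))))) =
      (fun l =>
      deriv B (Real.log ‖x‖) * ((‖x‖ ^ 2)⁻¹ * x l) * dl i j +
      ((deriv A (Real.log ‖x‖) - deriv B (Real.log ‖x‖)) * ((‖x‖ ^ 2)⁻¹ * x l) *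
        ((‖x‖ ^ 2)⁻¹ * (x i * x j)) +
      (A (Real.log ‖x‖) - B (Real.log ‖x‖)) *
        ((-2 * (‖x‖ ^ 2)⁻¹) * ((‖x‖ ^ 2)⁻¹ * x l) * (x i * x j) +
          (‖x‖ ^ 2)⁻¹ * (dl l i * x j + x i * dl l j)))) := by
    ext l
    unfold dl
    ring
  rw [← e]
  exact h3

theorem divg_radH {ψ A B : ℝ → ℝ} (hψ : Differentiable ℝ ψ)
    (hA : Differentiable ℝ A) (hB : Differentiable ℝ B) (j : Fin 3) {x : E3} (hx : x ≠ 0) :
    divg (cMetric ψ) (radH A B) j x = Real.exp (-(2 * ψ (Real.log ‖x‖))) *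
      ((‖x‖ ^ 2)⁻¹ * x j) * (deriv A (Real.log ‖x‖) + 2 * (A (Real.log ‖x‖) - B (Real.log ‖x‖)) -
        2 * deriv ψ (Real.log ‖x‖) * B (Real.log ‖x‖)) := by
  have hE : (‖x‖ ^ 2)⁻¹ * (x 0 ^ 2 + x 1 ^ 2 + x 2 ^ 2) = 1 := by
    rw [← norm_sq_eq]
    have h : 0 < ‖x‖ := norm_pos_iff.mpr hx
    field_simp
  unfold divg cov
  simp only [(hasPD_radH hA hB _ _ hx).pd]
  simp only [cMetric_inv, christoffel_cMetric hx hψ, radH, Matrix.of_apply]
  generalize Real.exp (-(2 * ψ (Real.log ‖x‖))) = e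
  generalize deriv ψ (Real.log ‖x‖) = p1
  generalize deriv A (Real.log ‖x‖) = a1
  generalize deriv B (Real.log ‖x‖) = b1
  generalize A (Real.log ‖x‖) = a
  generalize B (Real.log ‖x‖) = b
  generalize (‖x‖ ^ 2)⁻¹ = E at *
  simp only [Fin.sum_univ_three, dl]
  fin_cases j
  · simp
    linear_combination (e * E * x 0 * ((a1 - b1) - 2 * (a - b))) * hE
  · simp
    linear_combination (e * E * x 1 * ((a1 - b1) - 2 * (a - b))) * hE
  · simp
    linear_combination (e * E * x 2 * ((a1 - b1) - 2 * (a - b))) * hE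

theorem mom_radH {ψ A B : ℝ → ℝ} (hψ : Differentiable ℝ ψ)
    (hA : Differentiable ℝ A) (hB : Differentiable ℝ B) (j : Fin 3) {x : E3} (hx : x ≠ 0) :
    mom (cMetric ψ) (radH A B) j x = 2 * Real.exp (-(2 * ψ (Real.log ‖x‖))) *
      ((‖x‖ ^ 2)⁻¹ * x j) * ((A (Real.log ‖x‖) - B (Real.log ‖x‖)) +
        deriv ψ (Real.log ‖x‖) * (A (Real.log ‖x‖) + B (Real.log ‖x‖)) -
        deriv B (Real.log ‖x‖)) := by
  unfold mom
  rw [divg_radH hψ hA hB j hx]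
  have hF : HasDerivAt (fun t => Real.exp (-(2 * ψ t)) * (A t + 2 * B t))
      (Real.exp (-(2 * ψ (Real.log ‖x‖))) * (deriv A (Real.log ‖x‖) + 2 * deriv B (Real.log ‖x‖) -
        2 * deriv ψ (Real.log ‖x‖) * (A (Real.log ‖x‖) + 2 * B (Real.log ‖x‖)))) (Real.log ‖x‖) := by
    have h1 : HasDerivAt (fun t => -(2 * ψ t)) (-(2 * deriv ψ (Real.log ‖x‖))) (Real.log ‖x‖) :=
      ((hψ _).hasDerivAt.const_mul 2).neg
    have h2 := h1.exp
    have h3 : HasDerivAt (fun t => A t + 2 * B t)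
        (deriv A (Real.log ‖x‖) + 2 * deriv B (Real.log ‖x‖)) (Real.log ‖x‖) :=
      (hA _).hasDerivAt.add ((hB _).hasDerivAt.const_mul 2)
    refine (h2.mul h3).congr_deriv ?_
    ring
  have h4 := (hasPD_rad hx hF).congr (f' := trg (cMetric ψ) (radH A B)) (by
    have : ∀ᶠ y in nhds x, y ≠ 0 := isOpen_ne.eventually_mem hx
    filter_upwards [this] with y hy
    exact trg_radH hy)
  rw [h4.pd]
  ring

theorem momNorm_radH {ψ A B : ℝ → ℝ} (hψ : Differentiable ℝ ψ)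
    (hA : Differentiable ℝ A) (hB : Differentiable ℝ B) {x : E3} (hx : x ≠ 0) :
    momNorm (cMetric ψ) (radH A B) x = 2 * (Real.exp (-(ψ (Real.log ‖x‖)))) ^ 3 *
      ‖x‖⁻¹ * |(A (Real.log ‖x‖) - B (Real.log ‖x‖)) +
        deriv ψ (Real.log ‖x‖) * (A (Real.log ‖x‖) + B (Real.log ‖x‖)) -
        deriv B (Real.log ‖x‖)| := by
  have hpos : 0 < ‖x‖ := norm_pos_iff.mpr hx
  have hE : (‖x‖ ^ 2)⁻¹ * (x 0 ^ 2 + x 1 ^ 2 + x 2 ^ 2) = 1 := by
    rw [← norm_sq_eq]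
    field_simp
  have he : Real.exp (-(2 * ψ (Real.log ‖x‖))) = (Real.exp (-(ψ (Real.log ‖x‖)))) ^ 2 := by
    rw [← Real.exp_nat_mul]
    congr 1
    push_cast
    ring
  unfold momNorm
  simp only [mom_radH hψ hA hB _ hx, cMetric_inv]
  rw [he]
  set e := Real.exp (-(ψ (Real.log ‖x‖))) with hedef
  have hepos : 0 < e := Real.exp_pos _
  set K := (A (Real.log ‖x‖) - B (Real.log ‖x‖)) +
        deriv ψ (Real.log ‖x‖) * (A (Real.log ‖x‖) + B (Real.log ‖x‖)) -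
        deriv B (Real.log ‖x‖) with hK
  have hsum : (∑ i, ∑ j, e ^ 2 * dl i j * (2 * e ^ 2 * ((‖x‖ ^ 2)⁻¹ * x i) * K) *
      (2 * e ^ 2 * ((‖x‖ ^ 2)⁻¹ * x j) * K)) = (2 * e ^ 3 * ‖x‖⁻¹ * |K|) ^ 2 := by
    have h1 : (2 * e ^ 3 * ‖x‖⁻¹ * |K|) ^ 2 = 4 * e ^ 6 * (‖x‖ ^ 2)⁻¹ * K ^ 2 := by
      rw [mul_pow, sq_abs]
      have : (‖x‖ ^ 2)⁻¹ = (‖x‖⁻¹) ^ 2 := by rw [inv_pow]
      rw [this]; ring
    rw [h1]
    generalize (‖x‖ ^ 2)⁻¹ = E at *
    simp only [Fin.sum_univ_three, dl]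
    simp
    linear_combination (4 * e ^ 6 * E * K ^ 2) * hE
  rw [hsum]
  exact Real.sqrt_sq (by positivity)

theorem mu_radH {ψ A B : ℝ → ℝ} (hψ : Differentiable ℝ ψ)
    (hψ2 : Differentiable ℝ (deriv ψ)) {x : E3} (hx : x ≠ 0) :
    mu (cMetric ψ) (radH A B) x = -Real.exp (-(2 * ψ (Real.log ‖x‖))) * (‖x‖ ^ 2)⁻¹ *
      (2 * deriv (deriv ψ) (Real.log ‖x‖) + 2 * deriv ψ (Real.log ‖x‖) +
        (deriv ψ (Real.log ‖x‖)) ^ 2) + (Real.exp (-(2 * ψ (Real.log ‖x‖)))) ^ 2 *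
      (2 * A (Real.log ‖x‖) * B (Real.log ‖x‖) + (B (Real.log ‖x‖)) ^ 2) := by
  unfold mu
  rw [scal_cMetric hψ hψ2 hx, normSq2_radH hx, trg_radH hx]
  ring



end Pool.Agent.Lib.MP_c642b3_mp
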