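import Mathlib
import Pool.Agent.Lib.MP_c642b3_mp.Defs
import Pool.Agent.Lib.MP_c642b3_mp.Calc

namespace Pool.Agent.Lib.MP_c642b3_mp

open scoped InnerProductSpace ContDiff

/-- second order necessary condition -/
theorem second_order_nonneg {g g1 : ℝ → ℝ} {c : ℝ}
    (h1 : ∀ t, HasDerivAt g (g1 t) t) (h2 : HasDerivAt g1 c 0) (hmin : ∀ t, g 0 ≤ g t) :
    0 ≤ c := by
  by_contra hc
  rw [not_le] at hc
  have e1 : deriv g = g1 := funext (fun t => (h1 t).deriv)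
  have hlm : IsLocalMin g 0 := Filter.Eventually.of_forall hmin
  have hd0 : deriv g 0 = 0 := hlm.deriv_eq_zero
  have hdd : deriv (deriv g) 0 < 0 := by rw [e1, h2.deriv]; exact hc
  have hmax := isLocalMax_of_deriv_deriv_neg hdd hd0 (h1 0).continuousAt
  have hconst : g =ᶠ[nhds 0] fun _ => g 0 := by
    filter_upwards [hmax] with t ht
    exact le_antisymm ht (hmin t)
  have hd : deriv g =ᶠ[nhds 0] deriv (fun _ => g 0) := hconst.deriv
  have : deriv (deriv g) 0 = deriv (deriv (fun _ : ℝ => g 0)) 0 := hd.deriv_eq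
  rw [this] at hdd
  simp at hdd


theorem pd_sum (f : E3 → ℝ) (x v : E3) : fderiv ℝ f x v = ∑ i, v i * pd i f x := by
  have hv : v = ∑ i, v i • (EuclideanSpace.single i (1 : ℝ) : E3) := by
    ext j
    simp [Pi.single_apply]
  conv_lhs => rw [hv]
  rw [map_sum]
  apply Finset.sum_congr rfl
  intro i _
  rw [map_smul, smul_eq_mul]
  rfl

theorem rot_second_order {f : E3 → ℝ} {x : E3} (hf : ∀ y : E3, ‖y‖ = ‖x‖ → ContDiffAt ℝ 2 f y)
    (h0 : f x = 0) (hpos : ∀ y : E3, ‖y‖ = ‖x‖ → 0 ≤ f y) (i j : Fin 3) (hij : i ≠ j) :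
    x i * pd j f x = x j * pd i f x ∧
    x i * pd i f x + x j * pd j f x ≤ x j ^ 2 * pd i (pd i f) x + x i ^ 2 * pd j (pd j f) x -
      x i * x j * (pd i (pd j f) x + pd j (pd i f) x) := by
  set a : E3 := x i • EuclideanSpace.single i (1 : ℝ) + x j • EuclideanSpace.single j (1 : ℝ) with ha
  set b : E3 := x i • EuclideanSpace.single j (1 : ℝ) - x j • EuclideanSpace.single i (1 : ℝ) with hb
  set γ : ℝ → E3 := fun t => x + ((Real.cos t - 1) • a + Real.sin t • b) with hγ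
  have hγ0 : γ 0 = x := by simp [hγ]
  have hnorm : ∀ t, ‖γ t‖ = ‖x‖ := by
    intro t
    have h1 : ‖γ t‖ ^ 2 = ‖x‖ ^ 2 := by
      rw [norm_sq_eq, norm_sq_eq]
      have hsc := Real.sin_sq_add_cos_sq t
      simp only [hγ, ha, hb, PiLp.add_apply, PiLp.smul_apply, PiLp.sub_apply, PiLp.single_apply,
        smul_eq_mul]
      fin_cases i <;> fin_cases j <;> simp at hij ⊢ <;>
        first
        | exact absurd rfl hij
        | linear_combination (x 0 ^ 2 + x 1 ^ 2) * hsc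
        | linear_combination (x 0 ^ 2 + x 2 ^ 2) * hsc
        | linear_combination (x 1 ^ 2 + x 2 ^ 2) * hsc
    have h2 : 0 ≤ ‖γ t‖ := norm_nonneg _
    have h3 : 0 ≤ ‖x‖ := norm_nonneg _
    exact (pow_left_inj₀ h2 h3 (by norm_num)).mp h1
  have hγd : ∀ t, HasDerivAt γ ((-Real.sin t) • a + Real.cos t • b) t := by
    intro t
    have h1 : HasDerivAt (fun t => (Real.cos t - 1) • a) ((-Real.sin t) • a) t :=
      ((Real.hasDerivAt_cos t).sub_const 1).smul_const a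
    have h2 : HasDerivAt (fun t => Real.sin t • b) (Real.cos t • b) t :=
      (Real.hasDerivAt_sin t).smul_const b
    exact (h1.add h2).const_add x
  have hfd : ∀ y : E3, ‖y‖ = ‖x‖ → DifferentiableAt ℝ f y := by
    intro y hy
    exact (hf y hy).differentiableAt (by norm_num)
  have hpdd : ∀ k : Fin 3, ∀ y : E3, ‖y‖ = ‖x‖ → DifferentiableAt ℝ (pd k f) y := by
    intro k y hy
    have h1 : ContDiffAt ℝ 1 (fderiv ℝ f) y := (hf y hy).fderiv_right (by norm_num)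
    have h2 : DifferentiableAt ℝ (fderiv ℝ f) y := h1.differentiableAt (by norm_num)
    exact h2.clm_apply (differentiableAt_const _)
  -- values of the directional derivatives
  have hdira : ∀ (F : E3 → ℝ) (y : E3), fderiv ℝ F y a = x i * pd i F y + x j * pd j F y := by
    intro F y
    rw [ha, map_add, map_smul, map_smul]
    rfl
  have hdirb : ∀ (F : E3 → ℝ) (y : E3), fderiv ℝ F y b = x i * pd j F y - x j * pd i F y := by
    intro F y
    rw [hb, map_sub, map_smul, map_smul]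
    rfl
  set g1 : ℝ → ℝ := fun t => (-Real.sin t) * (x i * pd i f (γ t) + x j * pd j f (γ t)) +
    Real.cos t * (x i * pd j f (γ t) - x j * pd i f (γ t)) with hg1
  have hd1 : ∀ t, HasDerivAt (fun t => f (γ t)) (g1 t) t := by
    intro t
    have h1 := (hfd (γ t) (hnorm t)).hasFDerivAt.comp_hasDerivAt t (hγd t)
    refine h1.congr_deriv ?_
    rw [map_add, map_smul, map_smul, hdira, hdirb]
    simp [hg1]
  have hdk : ∀ k : Fin 3, HasDerivAt (fun t => pd k f (γ t))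
      (x i * pd j (pd k f) x - x j * pd i (pd k f) x) 0 := by
    intro k
    have h1 := (hpdd k (γ 0) (hnorm 0)).hasFDerivAt.comp_hasDerivAt 0 (hγd 0)
    refine h1.congr_deriv ?_
    rw [Real.sin_zero, Real.cos_zero, neg_zero, zero_smul, zero_add, one_smul, hdirb, hγ0]
  have hd2 : HasDerivAt g1 (-(x i * pd i f x + x j * pd j f x) +
      (x i * (x i * pd j (pd j f) x - x j * pd i (pd j f) x) -
        x j * (x i * pd j (pd i f) x - x j * pd i (pd i f) x))) 0 := by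
    have hA : HasDerivAt (fun t => x i * pd i f (γ t) + x j * pd j f (γ t)) _ 0 :=
      ((hdk i).const_mul (x i)).add ((hdk j).const_mul (x j))
    have hB : HasDerivAt (fun t => x i * pd j f (γ t) - x j * pd i f (γ t)) _ 0 :=
      ((hdk j).const_mul (x i)).sub ((hdk i).const_mul (x j))
    have h3 := ((Real.hasDerivAt_sin 0).neg.mul hA).add ((Real.hasDerivAt_cos 0).mul hB)
    refine h3.congr_deriv ?_
    simp [hγ0]
  have hmin : ∀ t, (fun t => f (γ t)) 0 ≤ (fun t => f (γ t)) t := by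
    intro t
    simp only [hγ0, h0]
    exact hpos _ (hnorm t)
  have hnn := second_order_nonneg hd1 hd2 hmin
  have hlm : IsLocalMin (fun t => f (γ t)) 0 := Filter.Eventually.of_forall hmin
  have hz : g1 0 = 0 := by
    have := hlm.deriv_eq_zero
    rw [(hd1 0).deriv] at this
    exact this
  constructor
  · simp only [hg1, Real.sin_zero, Real.cos_zero, hγ0] at hz
    linarith
  · linarith


theorem radial_deriv_nonneg {f : E3 → ℝ} {x : E3} (hf : DifferentiableAt ℝ f x)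
    (h0 : f x = 0) (hpos : ∀ y : E3, ‖x‖ ≤ ‖y‖ → 0 ≤ f y) : 0 ≤ ∑ i, x i * pd i f x := by
  rw [← pd_sum]
  have hγ : HasDerivAt (fun t : ℝ => x + t • x) x 0 := by
    have h1 : HasDerivAt (fun t : ℝ => t • x) ((1 : ℝ) • x) 0 := (hasDerivAt_id (0 : ℝ)).smul_const x
    rw [one_smul] at h1
    exact h1.const_add x
  have hf' : HasFDerivAt f (fderiv ℝ f x) (x + (0 : ℝ) • x) := by
    simpa using hf.hasFDerivAt
  have hd := hf'.comp_hasDerivAt (0 : ℝ) hγ
  have hs := hd.tendsto_slope_zero_right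
  refine ge_of_tendsto hs ?_
  filter_upwards [self_mem_nhdsWithin] with t ht
  have ht' : (0 : ℝ) < t := ht
  have h1 : 0 ≤ f (x + t • x) := by
    apply hpos
    have : x + t • x = (1 + t) • x := by rw [add_smul, one_smul]
    rw [this, norm_smul, Real.norm_of_nonneg (by linarith)]
    nlinarith [norm_nonneg x]
  simp only [Function.comp, zero_add, zero_smul, add_zero, h0, sub_zero, smul_eq_mul]
  positivity

theorem mean_curv_compare {ψ A B : ℝ → ℝ} (hψ : Differentiable ℝ ψ) {f : E3 → ℝ}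
    {x : E3} (hf : ∀ y : E3, ‖y‖ = ‖x‖ → ContDiffAt ℝ 2 f y) (hx : x ≠ 0)
    (h0 : f x = 0) (hpos : ∀ y : E3, ‖x‖ ≤ ‖y‖ → 0 ≤ f y) (hreg : fderiv ℝ f x ≠ 0)
    (hp : B (Real.log ‖x‖) * ‖x‖ * Real.exp (-(ψ (Real.log ‖x‖))) < 1 + deriv ψ (Real.log ‖x‖)) :
    trS (cMetric ψ) (radH A B) f x < meanCurv (cMetric ψ) f x := by
  have hrho : 0 < ‖x‖ := norm_pos_iff.mpr hx
  have hfx : DifferentiableAt ℝ f x := (hf x rfl).differentiableAt (by norm_num)
  have hE : (‖x‖ ^ 2)⁻¹ * (x 0 ^ 2 + x 1 ^ 2 + x 2 ^ 2) = 1 := by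
    rw [← norm_sq_eq]
    field_simp
  have hn2 := norm_sq_eq x
  have hpos' : ∀ y : E3, ‖y‖ = ‖x‖ → 0 ≤ f y := fun y hy => hpos y hy.ge
  obtain ⟨r01, s01⟩ := rot_second_order hf h0 hpos' 0 1 (by decide)
  obtain ⟨r02, s02⟩ := rot_second_order hf h0 hpos' 0 2 (by decide)
  obtain ⟨r12, s12⟩ := rot_second_order hf h0 hpos' 1 2 (by decide)
  have hrad := radial_deriv_nonneg hfx h0 hpos
  rw [Fin.sum_univ_three] at hrad
  set lam := (‖x‖ ^ 2)⁻¹ * (x 0 * pd 0 f x + x 1 * pd 1 f x + x 2 * pd 2 f x) with hlam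
  have g0 : pd 0 f x = lam * x 0 := by
    rw [hlam]
    linear_combination (-(pd 0 f x)) * hE + (‖x‖ ^ 2)⁻¹ * (-(x 1) * r01 - x 2 * r02)
  have g1 : pd 1 f x = lam * x 1 := by
    rw [hlam]
    linear_combination (-(pd 1 f x)) * hE + (‖x‖ ^ 2)⁻¹ * (x 0 * r01 - x 2 * r12)
  have g2 : pd 2 f x = lam * x 2 := by
    rw [hlam]
    linear_combination (-(pd 2 f x)) * hE + (‖x‖ ^ 2)⁻¹ * (x 0 * r02 + x 1 * r12)
  have hlam0 : 0 ≤ lam := by positivity
  have hlamne : lam ≠ 0 := by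
    intro h
    apply hreg
    ext v
    rw [pd_sum, Fin.sum_univ_three, g0, g1, g2, h]
    simp
  have hlampos : 0 < lam := lt_of_le_of_ne hlam0 (Ne.symm hlamne)
  have hgi : ∀ i : Fin 3, pd i f x = lam * x i := by
    intro i; fin_cases i
    · exact g0
    · exact g1
    · exact g2
  have he : Real.exp (-(2 * ψ (Real.log ‖x‖))) = (Real.exp (-(ψ (Real.log ‖x‖)))) ^ 2 := by
    rw [← Real.exp_nat_mul]
    congr 1
    push_cast
    ring
  have hX : 0 < Real.exp (-(ψ (Real.log ‖x‖))) := Real.exp_pos _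
  have hgrad : gradSq (cMetric ψ) f x = (Real.exp (-(ψ (Real.log ‖x‖))) * lam * ‖x‖) ^ 2 := by
    unfold gradSq
    simp only [cMetric_inv, hgi, he, Fin.sum_univ_three, dl]
    simp
    rw [mul_pow, mul_pow, hn2]
    ring
  have hsqrt : Real.sqrt (gradSq (cMetric ψ) f x) = Real.exp (-(ψ (Real.log ‖x‖))) * lam * ‖x‖ := by
    rw [hgrad]
    exact Real.sqrt_sq (by positivity)
  have hnrm : ∀ i, nrm (cMetric ψ) f i x = Real.exp (-(ψ (Real.log ‖x‖))) * (‖x‖⁻¹ * x i) := by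
    intro i
    unfold nrm
    rw [hsqrt]
    simp only [cMetric_inv, hgi, he, Fin.sum_univ_three, dl]
    rw [div_eq_iff (by positivity)]
    fin_cases i <;> simp <;> field_simp
  have hproj : ∀ i j, proj (cMetric ψ) f i j x =
      (Real.exp (-(ψ (Real.log ‖x‖)))) ^ 2 * (dl i j - (‖x‖ ^ 2)⁻¹ * (x i * x j)) := by
    intro i j
    unfold proj
    have hinv : (‖x‖ ^ 2)⁻¹ = ‖x‖⁻¹ * ‖x‖⁻¹ := by rw [sq, mul_inv]
    rw [hnrm, hnrm, cMetric_inv, he, hinv]
    ring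
  have htrS : trS (cMetric ψ) (radH A B) f x =
      (Real.exp (-(ψ (Real.log ‖x‖)))) ^ 2 * (2 * B (Real.log ‖x‖)) := by
    unfold trS
    simp only [hproj, radH, Matrix.of_apply]
    generalize Real.exp (-(ψ (Real.log ‖x‖))) = X
    generalize A (Real.log ‖x‖) = a
    generalize B (Real.log ‖x‖) = b
    generalize (‖x‖ ^ 2)⁻¹ = E at *
    simp only [Fin.sum_univ_three, dl]
    simp
    linear_combination (-(X ^ 2) * (b + (a - b) * (E * (x 0 ^ 2 + x 1 ^ 2 + x 2 ^ 2)))) * hE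
  have hmc : meanCurv (cMetric ψ) f x =
      ((Real.exp (-(ψ (Real.log ‖x‖)))) ^ 2 *
        ((∑ i, ∑ j, (dl i j - (‖x‖ ^ 2)⁻¹ * (x i * x j)) * pd i (pd j f) x) +
          2 * lam * deriv ψ (Real.log ‖x‖))) /
        (Real.exp (-(ψ (Real.log ‖x‖))) * lam * ‖x‖) := by
    unfold meanCurv
    rw [hsqrt]
    congr 1
    simp only [hproj, christoffel_cMetric hx hψ, hgi]
    generalize Real.exp (-(ψ (Real.log ‖x‖))) = X
    generalize deriv ψ (Real.log ‖x‖) = p1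
    generalize (‖x‖ ^ 2)⁻¹ = E at *
    generalize lam = la
    simp only [Fin.sum_univ_three, dl]
    simp
    linear_combination (X ^ 2 * la * p1 * (E * (x 0 ^ 2 + x 1 ^ 2 + x 2 ^ 2) + 2)) * hE
  have hlap : 2 * lam ≤ ∑ i, ∑ j, (dl i j - (‖x‖ ^ 2)⁻¹ * (x i * x j)) * pd i (pd j f) x := by
    have h1 : (∑ i, ∑ j, (dl i j - (‖x‖ ^ 2)⁻¹ * (x i * x j)) * pd i (pd j f) x) =
        (‖x‖ ^ 2)⁻¹ * ((x 1 ^ 2 * pd 0 (pd 0 f) x + x 0 ^ 2 * pd 1 (pd 1 f) x -
          x 0 * x 1 * (pd 0 (pd 1 f) x + pd 1 (pd 0 f) x)) +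
          (x 2 ^ 2 * pd 0 (pd 0 f) x + x 0 ^ 2 * pd 2 (pd 2 f) x -
          x 0 * x 2 * (pd 0 (pd 2 f) x + pd 2 (pd 0 f) x)) +
          (x 2 ^ 2 * pd 1 (pd 1 f) x + x 1 ^ 2 * pd 2 (pd 2 f) x -
          x 1 * x 2 * (pd 1 (pd 2 f) x + pd 2 (pd 1 f) x))) := by
      simp only [Fin.sum_univ_three, dl]
      simp
      generalize (‖x‖ ^ 2)⁻¹ = E at *
      linear_combination (-(pd 0 (pd 0 f) x + pd 1 (pd 1 f) x + pd 2 (pd 2 f) x)) * hE
    have h2 : 2 * lam = (‖x‖ ^ 2)⁻¹ * ((x 0 * pd 0 f x + x 1 * pd 1 f x) +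
        (x 0 * pd 0 f x + x 2 * pd 2 f x) + (x 1 * pd 1 f x + x 2 * pd 2 f x)) := by
      rw [hlam]; ring
    rw [h1, h2]
    apply mul_le_mul_of_nonneg_left _ (by positivity)
    linarith
  rw [htrS, hmc, lt_div_iff₀ (by positivity)]
  generalize (∑ i, ∑ j, (dl i j - (‖x‖ ^ 2)⁻¹ * (x i * x j)) * pd i (pd j f) x) = Lp at *
  generalize Real.exp (-(ψ (Real.log ‖x‖))) = X at *
  generalize deriv ψ (Real.log ‖x‖) = p1 at *
  generalize B (Real.log ‖x‖) = b at *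
  have h3 : X ^ 2 * (2 * b) * (X * lam * ‖x‖) = (2 * X ^ 2 * lam) * (b * ‖x‖ * X) := by ring
  have h4 : (2 * X ^ 2 * lam) * (b * ‖x‖ * X) < (2 * X ^ 2 * lam) * (1 + p1) :=
    mul_lt_mul_of_pos_left hp (by positivity)
  have h5 : X ^ 2 * (2 * lam + 2 * lam * p1) ≤ X ^ 2 * (Lp + 2 * lam * p1) := by
    apply mul_le_mul_of_nonneg_left _ (by positivity)
    linarith
  calc X ^ 2 * (2 * b) * (X * lam * ‖x‖) = (2 * X ^ 2 * lam) * (b * ‖x‖ * X) := h3
    _ < (2 * X ^ 2 * lam) * (1 + p1) := h4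
    _ = X ^ 2 * (2 * lam + 2 * lam * p1) := by ring
    _ ≤ _ := h5



end Pool.Agent.Lib.MP_c642b3_mp
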