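import Mathlib

namespace Pool.Agent.Lib.MP_c642b3_mp

open scoped ContDiff

/-- primitive -/
noncomputable def prim (g : ℝ → ℝ) (a t : ℝ) : ℝ := ∫ s in a..t, g s

theorem prim_hasDerivAt {g : ℝ → ℝ} (hg : ContDiff ℝ ∞ g) (a t : ℝ) :
    HasDerivAt (prim g a) (g t) t := by
  have hc : Continuous g := hg.continuous
  exact intervalIntegral.integral_hasDerivAt_right (hc.intervalIntegrable _ _)
    (hc.stronglyMeasurableAtFilter _ _) hc.continuousAt

theorem prim_contDiff {g : ℝ → ℝ} (hg : ContDiff ℝ ∞ g) (a : ℝ) : ContDiff ℝ ∞ (prim g a) := by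
  rw [contDiff_infty_iff_deriv]
  constructor
  · intro t; exact (prim_hasDerivAt hg a t).differentiableAt
  · have : deriv (prim g a) = g := funext (fun t => (prim_hasDerivAt hg a t).deriv)
    rw [this]; exact hg

theorem prim_left {g : ℝ → ℝ} {a t : ℝ} (h : ∀ s ≤ a, g s = 0) (ht : t ≤ a) : prim g a t = 0 := by
  unfold prim
  have : ∫ s in a..t, g s = ∫ s in a..t, (0 : ℝ) := by
    apply intervalIntegral.integral_congr
    intro s hs
    rw [Set.uIcc_of_ge ht] at hs
    exact h s hs.2
  rw [this]; simp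

theorem prim_add {g : ℝ → ℝ} (hg : Continuous g) (a b t : ℝ) :
    prim g a t = prim g a b + ∫ s in b..t, g s :=
  (intervalIntegral.integral_add_adjacent_intervals (hg.intervalIntegrable _ _)
    (hg.intervalIntegrable _ _)).symm

theorem integral_lower {g : ℝ → ℝ} (hg : Continuous g) {b t c : ℝ} (hbt : b ≤ t)
    (h : ∀ s ∈ Set.Icc b t, c ≤ g s) : c * (t - b) ≤ ∫ s in b..t, g s := by
  have : ∫ s in b..t, (c : ℝ) = c * (t - b) := by
    rw [intervalIntegral.integral_const, smul_eq_mul, mul_comm]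
  rw [← this]
  exact intervalIntegral.integral_mono_on hbt (by simp) (hg.intervalIntegrable _ _) h

theorem integral_upper {g : ℝ → ℝ} (hg : Continuous g) {b t c : ℝ} (hbt : b ≤ t)
    (h : ∀ s ∈ Set.Icc b t, g s ≤ c) : ∫ s in b..t, g s ≤ c * (t - b) := by
  have : ∫ s in b..t, (c : ℝ) = c * (t - b) := by
    rw [intervalIntegral.integral_const, smul_eq_mul, mul_comm]
  rw [← this]
  exact intervalIntegral.integral_mono_on hbt (hg.intervalIntegrable _ _) (by simp) h

theorem integral_eq_zero {g : ℝ → ℝ} {b t : ℝ} (hbt : b ≤ t)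
    (h : ∀ s ≥ b, g s = 0) : ∫ s in b..t, g s = 0 := by
  have : ∫ s in b..t, g s = ∫ s in b..t, (0 : ℝ) := by
    apply intervalIntegral.integral_congr
    intro s hs
    rw [Set.uIcc_of_le hbt] at hs
    exact h s hs.1
  rw [this]; simp

/-- hyperbolic tangent of the half -/
noncomputable def th (x : ℝ) : ℝ := Real.sinh (x / 2) / Real.cosh (x / 2)

theorem th_hasDerivAt (x : ℝ) : HasDerivAt th ((1 - th x ^ 2) / 2) x := by
  have hc : Real.cosh (x / 2) ≠ 0 := (Real.cosh_pos _).ne'
  have h1 : HasDerivAt (fun x : ℝ => x / 2) (1 / 2) x := (hasDerivAt_id x).div_const 2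
  have h2 := (Real.hasDerivAt_sinh (x / 2)).comp x h1
  have h3 := (Real.hasDerivAt_cosh (x / 2)).comp x h1
  have h4 := h2.div h3 hc
  refine h4.congr_deriv ?_
  unfold th
  simp only [Function.comp]
  field_simp

theorem th_contDiff : ContDiff ℝ ∞ th := by
  unfold th
  apply ContDiff.div
  · exact Real.contDiff_sinh.comp (contDiff_id.div_const 2)
  · exact Real.contDiff_cosh.comp (contDiff_id.div_const 2)
  · intro x; exact (Real.cosh_pos _).ne'

theorem th_sq_lt_one (x : ℝ) : th x ^ 2 < 1 := by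
  unfold th
  rw [div_pow, div_lt_one (by have := Real.cosh_pos (x/2); positivity)]
  have := Real.cosh_sq (x / 2)
  linarith

theorem th_pos {x : ℝ} (hx : 0 < x) : 0 < th x := by
  unfold th
  exact div_pos (Real.sinh_pos_iff.mpr (by linarith)) (Real.cosh_pos _)

theorem th_nonneg {x : ℝ} (hx : 0 ≤ x) : 0 ≤ th x := by
  unfold th
  exact div_nonneg (Real.sinh_nonneg_iff.mpr (by linarith)) (Real.cosh_pos _).le

theorem th_mono : Monotone th := by
  apply monotone_of_deriv_nonneg
  · intro x; exact (th_hasDerivAt x).differentiableAt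
  · intro x
    rw [(th_hasDerivAt x).deriv]
    have := th_sq_lt_one x
    linarith

theorem logcosh_hasDerivAt (x : ℝ) :
    HasDerivAt (fun x => 2 * Real.log (Real.cosh (x / 2))) (th x) x := by
  have hc : Real.cosh (x / 2) ≠ 0 := (Real.cosh_pos _).ne'
  have h1 : HasDerivAt (fun x : ℝ => x / 2) (1 / 2) x := (hasDerivAt_id x).div_const 2
  have h3 := (Real.hasDerivAt_cosh (x / 2)).comp x h1
  have h4 := (h3.log hc).const_mul 2
  refine h4.congr_deriv ?_
  unfold th
  simp only [Function.comp]
  field_simp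

theorem logcosh_contDiff : ContDiff ℝ ∞ (fun x => 2 * Real.log (Real.cosh (x / 2))) := by
  apply contDiff_const.mul
  apply ContDiff.log
  · exact Real.contDiff_cosh.comp (contDiff_id.div_const 2)
  · intro x; exact (Real.cosh_pos _).ne'

/-- smooth transition -/
noncomputable def S (x : ℝ) : ℝ := Real.smoothTransition x

theorem S_contDiff : ContDiff ℝ ∞ S := Real.smoothTransition.contDiff

theorem S_nonneg (x : ℝ) : 0 ≤ S x := Real.smoothTransition.nonneg x
theorem S_le_one (x : ℝ) : S x ≤ 1 := Real.smoothTransition.le_one x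
theorem S_zero {x : ℝ} (hx : x ≤ 0) : S x = 0 := Real.smoothTransition.zero_of_nonpos hx
theorem S_one {x : ℝ} (hx : 1 ≤ x) : S x = 1 := Real.smoothTransition.one_of_one_le hx

theorem S_diff (x : ℝ) : HasDerivAt S (deriv S x) x :=
  (S_contDiff.differentiable (by simp) x).hasDerivAt

theorem S_deriv_nonneg (x : ℝ) : 0 ≤ deriv S x :=
  Real.smoothTransition.monotone.deriv_nonneg

theorem S_deriv_zero_of_nonpos {x : ℝ} (hx : x ≤ 0) : deriv S x = 0 := by
  have : IsLocalMin S x := Filter.Eventually.of_forall (fun y => by rw [S_zero hx]; exact S_nonneg y)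
  exact this.deriv_eq_zero

theorem S_deriv_zero_of_one_le {x : ℝ} (hx : 1 ≤ x) : deriv S x = 0 := by
  have : IsLocalMax S x := Filter.Eventually.of_forall (fun y => by rw [S_one hx]; exact S_le_one y)
  exact this.deriv_eq_zero

theorem S_deriv_bound : ∃ K : ℝ, 0 < K ∧ ∀ x, deriv S x ≤ K := by
  have hc : ContinuousOn (deriv S) (Set.Icc 0 1) :=
    (S_contDiff.continuous_deriv (by simp)).continuousOn
  obtain ⟨C, hC⟩ := isCompact_Icc.exists_bound_of_continuousOn hc
  refine ⟨max C 0 + 1, by positivity, fun x => ?_⟩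
  by_cases h0 : x ≤ 0
  · rw [S_deriv_zero_of_nonpos h0]; positivity
  by_cases h1 : 1 ≤ x
  · rw [S_deriv_zero_of_one_le h1]; positivity
  · have := hC x ⟨by linarith, by linarith⟩
    have h2 := le_abs_self (deriv S x)
    rw [Real.norm_eq_abs] at this
    have h3 := le_max_left C 0
    linarith

/-- Profile of the extension: area radius `e^w`, `β = r b`. -/
theorem profile_exists (m t1 ε : ℝ) (hm : 0 < m) (ht : Real.log (m / 2) < t1) (hε : 0 < ε) :
    ∃ (w β : ℝ → ℝ) (M c t2 : ℝ), ContDiff ℝ ∞ w ∧ ContDiff ℝ ∞ β ∧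
      (∀ t ≤ t1, w t = Real.log (2 * m) + 2 * Real.log (Real.cosh ((t - Real.log (m / 2)) / 2)) ∧
        β t = 0) ∧
      0 < M ∧ M < ε ∧ (∀ t ≥ t2, w t = Real.log (2 * M) + 2 * Real.log (Real.cosh ((t - c) / 2)) ∧
        β t = 0) ∧
      (∀ t > Real.log (m / 2), β t < deriv w t) ∧
      (∀ t, 2 * |deriv β t| ≤ 1 - deriv w t ^ 2 - 2 * deriv (deriv w) t + β t ^ 2) := by
  set tm := Real.log (m / 2) with htm
  obtain ⟨K, hK0, hK⟩ := S_deriv_bound
  set φ1 := t1 - tm with hφ1
  have hφ1pos : 0 < φ1 := by rw [hφ1]; linarith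
  set D0 := 1 - th (φ1 + 1) ^ 2 with hD0
  have hD0pos : 0 < D0 := by rw [hD0]; have := th_sq_lt_one (φ1 + 1); linarith
  set L := 8 * K / D0 + 1 with hL
  have hLpos : 1 ≤ L := by rw [hL]; have : 0 < 8 * K / D0 := by positivity
                           linarith
  have hLD : 8 * K / L ≤ D0 := by
    rw [div_le_iff₀ (by linarith)]
    have : D0 * L = 8 * K + D0 := by rw [hL]; field_simp
    rw [this]; linarith
  obtain ⟨N, hN0, hN⟩ : ∃ N : ℝ, 0 ≤ N ∧ m * Real.exp (-N) < ε := by
    refine ⟨max 0 (Real.log (m / ε) + 1), le_max_left _ _, ?_⟩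
    have h1 : Real.exp (-(max 0 (Real.log (m / ε) + 1))) ≤ Real.exp (-(Real.log (m / ε) + 1)) := by
      apply Real.exp_le_exp.mpr
      have := le_max_right 0 (Real.log (m / ε) + 1)
      linarith
    have h2 : Real.exp (-(Real.log (m / ε) + 1)) = (ε / m) * Real.exp (-1) := by
      rw [neg_add, Real.exp_add, Real.exp_neg, Real.exp_log (by positivity)]
      field_simp
    rw [h2] at h1
    have h3 : Real.exp (-1) < 1 := by
      rw [Real.exp_lt_one_iff]; norm_num
    calc m * Real.exp (-(max 0 (Real.log (m / ε) + 1))) ≤ m * ((ε / m) * Real.exp (-1)) :=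
          mul_le_mul_of_nonneg_left h1 hm.le
      _ = ε * Real.exp (-1) := by field_simp
      _ < ε * 1 := mul_lt_mul_of_pos_left h3 hε
      _ = ε := mul_one ε
  set T1 := L + 3 + N with hT1
  set T2 := T1 + L with hT2
  -- the cutoff `1 - φ'`
  set χ : ℝ → ℝ := fun t => S (t - t1) * (1 - S (t - t1 - T2)) with hχ
  have hSc : ∀ a : ℝ, ContDiff ℝ ∞ (fun t => S (t - a)) := fun a =>
    S_contDiff.comp (contDiff_id.sub contDiff_const)
  have hχc : ContDiff ℝ ∞ χ := by
    apply (hSc t1).mul
    apply contDiff_const.sub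
    have : (fun t : ℝ => S (t - t1 - T2)) = (fun t => S (t - (t1 + T2))) := by
      ext t; congr 1; ring
    rw [this]; exact hSc _
  have hχ0 : ∀ t, 0 ≤ χ t := fun t => mul_nonneg (S_nonneg _) (by have := S_le_one (t - t1 - T2); linarith)
  have hχ1 : ∀ t, χ t ≤ 1 := fun t => by
    have h1 := S_le_one (t - t1); have h2 := S_nonneg (t - t1)
    have h3 := S_le_one (t - t1 - T2); have h4 := S_nonneg (t - t1 - T2)
    simp only [hχ]; nlinarith
  have hχleft : ∀ t ≤ t1, χ t = 0 := fun t ht => by
    simp only [hχ]; rw [S_zero (by linarith)]; ring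
  have hχmid : ∀ t, t1 + 1 ≤ t → t ≤ t1 + T2 → χ t = 1 := fun t h1 h2 => by
    simp only [hχ]; rw [S_one (by linarith), S_zero (x := t - t1 - T2) (by linarith)]; ring
  have hχright : ∀ t, t1 + T2 + 1 ≤ t → χ t = 0 := fun t h1 => by
    simp only [hχ]; rw [S_one (x := t - t1 - T2) (by linarith)]; ring
  set F := prim χ t1 with hF
  have hFd : ∀ t, HasDerivAt F (χ t) t := prim_hasDerivAt hχc t1
  have hFc : ContDiff ℝ ∞ F := prim_contDiff hχc t1
  have hFleft : ∀ t ≤ t1, F t = 0 := fun t ht => prim_left hχleft ht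
  have hFup : ∀ t ≥ t1, F t ≤ t - t1 := fun t ht => by
    have := integral_upper hχc.continuous ht (fun s _ => hχ1 s)
    rw [one_mul] at this
    exact this
  have hT1pos : 4 ≤ T1 := by rw [hT1]; linarith
  have hT2pos : 5 ≤ T2 := by rw [hT2]; linarith
  have hFlow : ∀ t, t1 + 1 ≤ t → t ≤ t1 + T2 → t - t1 - 1 ≤ F t := fun t h1 h2 => by
    have e1 := prim_add hχc.continuous t1 (t1 + 1) t
    have e2 := integral_lower hχc.continuous (c := 1) h1
      (fun s hs => (hχmid s hs.1 (hs.2.trans h2)).ge)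
    have e3 := integral_lower hχc.continuous (c := 0) (b := t1) (t := t1 + 1) (by linarith)
      (fun s _ => hχ0 s)
    have e4 : prim χ t1 (t1 + 1) = ∫ s in t1..(t1 + 1), χ s := rfl
    have e5 : F t = prim χ t1 t := rfl
    rw [e5, e1, e4]
    linarith
  set t2 := t1 + T2 + 1 with ht2
  have hFright : ∀ t ≥ t2, F t = F t2 := fun t ht => by
    have e1 := prim_add hχc.continuous t1 t2 t
    have e2 := integral_eq_zero (g := χ) ht (fun s hs => hχright s hs)
    have e5 : F t = prim χ t1 t := rfl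
    rw [e5, e1, e2, add_zero]
  set φ : ℝ → ℝ := fun t => t - tm - F t with hφ
  have hφd : ∀ t, HasDerivAt φ (1 - χ t) t := fun t =>
    ((hasDerivAt_id t).sub_const tm).sub (hFd t)
  have hφc : ContDiff ℝ ∞ φ := (contDiff_id.sub contDiff_const).sub hFc
  have hφpos : ∀ t ≥ t1, φ1 ≤ φ t := fun t ht => by
    have := hFup t ht
    simp only [hφ, hφ1]; linarith
  have hφup : ∀ t, t1 + 1 ≤ t → t ≤ t1 + T2 → φ t ≤ φ1 + 1 := fun t h1 h2 => by
    have := hFlow t h1 h2
    simp only [hφ, hφ1]; linarith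
  -- `p`
  set p : ℝ → ℝ := fun t => th (φ t) with hp
  have hpd : ∀ t, HasDerivAt p ((1 - p t ^ 2) / 2 * (1 - χ t)) t := fun t =>
    (th_hasDerivAt (φ t)).comp t (hφd t)
  have hpc : ContDiff ℝ ∞ p := th_contDiff.comp hφc
  have hppos : ∀ t ≥ t1, 0 < p t := fun t ht => th_pos (lt_of_lt_of_le hφ1pos (hφpos t ht))
  have hp1 : ∀ t, p t ^ 2 < 1 := fun t => th_sq_lt_one _
  -- `δ`
  set δ : ℝ → ℝ := fun t => 4 * (S (t - t1) * (1 - S ((t - t1 - T1) / L))) with hδ
  have hSL : ContDiff ℝ ∞ (fun t => S ((t - t1 - T1) / L)) :=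
    S_contDiff.comp (((contDiff_id.sub contDiff_const).sub contDiff_const).div_const L)
  have hδc : ContDiff ℝ ∞ δ := contDiff_const.mul ((hSc t1).mul (contDiff_const.sub hSL))
  have hδ0 : ∀ t, 0 ≤ δ t := fun t => by
    have h1 := S_nonneg (t - t1); have h2 := S_le_one ((t - t1 - T1) / L)
    simp only [hδ]
    have : 0 ≤ S (t - t1) * (1 - S ((t - t1 - T1) / L)) := mul_nonneg h1 (by linarith)
    linarith
  have hδleft : ∀ t ≤ t1, δ t = 0 := fun t ht => by
    simp only [hδ]; rw [S_zero (x := t - t1) (by linarith)]; ring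
  have hδmid : ∀ t, t1 + 1 ≤ t → t ≤ t1 + T1 → δ t = 4 := fun t h1 h2 => by
    simp only [hδ]
    rw [S_one (x := t - t1) (by linarith), S_zero (x := (t - t1 - T1) / L)
      (div_nonpos_of_nonpos_of_nonneg (by linarith) (by linarith))]
    ring
  have hδright : ∀ t, t1 + T2 ≤ t → δ t = 0 := fun t h1 => by
    simp only [hδ]
    rw [S_one (x := (t - t1 - T1) / L) (by rw [le_div_iff₀ (by linarith)]; linarith)]
    ring
  have hδd : ∀ t, HasDerivAt δ (4 * (deriv S (t - t1) * (1 - S ((t - t1 - T1) / L)) +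
      S (t - t1) * (-(deriv S ((t - t1 - T1) / L) * (1 / L))))) t := fun t => by
    have h1 : HasDerivAt (fun t => S (t - t1)) (deriv S (t - t1) * 1) t :=
      (S_diff (t - t1)).comp t ((hasDerivAt_id t).sub_const t1)
    rw [mul_one] at h1
    have h2 : HasDerivAt (fun t => S ((t - t1 - T1) / L)) (deriv S ((t - t1 - T1) / L) * (1 / L)) t :=
      (S_diff ((t - t1 - T1) / L)).comp t ((((hasDerivAt_id t).sub_const t1).sub_const T1).div_const L)
    exact (h1.mul (h2.const_sub 1)).const_mul 4
  -- key inequality for `δ'`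
  have hkey : ∀ t, |deriv δ t| ≤ (1 - p t ^ 2) * χ t + p t * δ t + deriv δ t := by
    intro t
    rw [(hδd t).deriv]
    have hSn := S_deriv_nonneg (t - t1)
    have hSm := S_deriv_nonneg ((t - t1 - T1) / L)
    have h1 : 0 ≤ (1 - p t ^ 2) * χ t := mul_nonneg (by have := hp1 t; linarith) (hχ0 t)
    have h2 : 0 ≤ p t * δ t := by
      rcases le_total t t1 with h | h
      · rw [hδleft t h]; simp
      · exact mul_nonneg (hppos t h).le (hδ0 t)
    have hS1 : 0 ≤ 1 - S ((t - t1 - T1) / L) := by
      have := S_le_one ((t - t1 - T1) / L); linarith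
    by_cases hin : 0 < (t - t1 - T1) / L ∧ (t - t1 - T1) / L < 1
    · obtain ⟨ha, hb⟩ := hin
      have ha' : t1 + T1 < t := by
        have := (div_pos_iff_of_pos_right (by linarith : (0:ℝ) < L)).mp ha
        linarith
      have hb' : t < t1 + T2 := by
        rw [div_lt_one (by linarith)] at hb
        linarith
      rw [S_deriv_zero_of_one_le (x := t - t1) (by linarith), S_one (x := t - t1) (by linarith)]
      rw [hχmid t (by linarith) hb'.le]
      have hpb : p t ≤ th (φ1 + 1) := th_mono (hφup t (by linarith) hb'.le)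
      have hpp := hppos t (by linarith)
      have hD : D0 ≤ 1 - p t ^ 2 := by
        rw [hD0]
        have : p t ^ 2 ≤ th (φ1 + 1) ^ 2 := pow_le_pow_left₀ hpp.le hpb 2
        linarith
      have hKb := hK ((t - t1 - T1) / L)
      have h3 : 8 * (deriv S ((t - t1 - T1) / L) * (1 / L)) ≤ D0 := by
        have : 8 * (deriv S ((t - t1 - T1) / L) * (1 / L)) ≤ 8 * K / L := by
          rw [mul_one_div, ← mul_div_assoc]
          apply div_le_div_of_nonneg_right _ (by linarith)
          linarith
        linarith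
      have h4 : 0 ≤ deriv S ((t - t1 - T1) / L) * (1 / L) := by
        have : 0 ≤ 1 / L := by positivity
        exact mul_nonneg hSm this
      rw [abs_le]
      constructor <;> nlinarith
    · have hz : deriv S ((t - t1 - T1) / L) = 0 := by
        rw [not_and_or, not_lt, not_lt] at hin
        rcases hin with h | h
        · exact S_deriv_zero_of_nonpos h
        · exact S_deriv_zero_of_one_le h
      rw [hz]
      have h3 : 0 ≤ 4 * (deriv S (t - t1) * (1 - S ((t - t1 - T1) / L)) +
          S (t - t1) * (-(0 * (1 / L)))) := by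
        have := mul_nonneg hSn hS1
        linarith
      rw [abs_of_nonneg h3]
      linarith
  -- `w`
  set gI : ℝ → ℝ := fun t => p t * χ t - δ t / 2 with hgI
  have hgIc : ContDiff ℝ ∞ gI := (hpc.mul hχc).sub (hδc.div_const 2)
  set I := prim gI t1 with hI
  have hId : ∀ t, HasDerivAt I (gI t) t := prim_hasDerivAt hgIc t1
  have hIc : ContDiff ℝ ∞ I := prim_contDiff hgIc t1
  have hgIleft : ∀ t ≤ t1, gI t = 0 := fun t ht => by
    simp only [hgI]; rw [hχleft t ht, hδleft t ht]; ring
  have hgIright : ∀ t ≥ t2, gI t = 0 := fun t ht => by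
    simp only [hgI]; rw [hχright t ht, hδright t (by linarith)]; ring
  have hp_le : ∀ t, p t ≤ 1 := fun t => by
    have := hp1 t; nlinarith
  have hpχ : ∀ t ≥ t1, p t * χ t ≤ 1 := fun t ht => by
    have h1 := hppos t ht; have h2 := hp_le t; have h3 := hχ0 t; have h4 := hχ1 t
    nlinarith
  have hI2 : I t2 ≤ -N := by
    have e1 := prim_add hgIc.continuous t1 (t1 + 1) t2
    have e2 : ∫ s in (t1 + 1)..t2, gI s = (∫ s in (t1 + 1)..(t1 + T1), gI s) +
        ∫ s in (t1 + T1)..t2, gI s :=
      (intervalIntegral.integral_add_adjacent_intervals (hgIc.continuous.intervalIntegrable _ _)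
        (hgIc.continuous.intervalIntegrable _ _)).symm
    have u1 := integral_upper hgIc.continuous (b := t1) (t := t1 + 1) (c := 1) (by linarith)
      (fun s hs => by
        have := hpχ s hs.1; have := hδ0 s; simp only [hgI]; linarith)
    have u2 := integral_upper hgIc.continuous (b := t1 + 1) (t := t1 + T1) (c := -1) (by linarith)
      (fun s hs => by
        have := hpχ s (by linarith [hs.1]); have := hδmid s hs.1 hs.2; simp only [hgI]; linarith)
    have u3 := integral_upper hgIc.continuous (b := t1 + T1) (t := t2) (c := 1) (by linarith)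
      (fun s hs => by
        have := hpχ s (by linarith [hs.1]); have := hδ0 s; simp only [hgI]; linarith)
    have e3 : prim gI t1 (t1 + 1) = ∫ s in t1..(t1 + 1), gI s := rfl
    have e5 : I t2 = prim gI t1 t2 := rfl
    rw [e5, e1, e2, e3]
    linarith
  set w : ℝ → ℝ := fun t => Real.log (2 * m) + 2 * Real.log (Real.cosh (φ t / 2)) + I t with hw
  have hwd : ∀ t, HasDerivAt w (p t - δ t / 2) t := fun t => by
    have h1 : HasDerivAt (fun t => 2 * Real.log (Real.cosh (φ t / 2))) (th (φ t) * (1 - χ t)) t :=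
      (logcosh_hasDerivAt (φ t)).comp t (hφd t)
    have h2 := (h1.const_add (Real.log (2 * m))).add (hId t)
    refine h2.congr_deriv ?_
    simp only [hgI, hp]; ring
  have hwc : ContDiff ℝ ∞ w :=
    (contDiff_const.add (logcosh_contDiff.comp hφc)).add hIc
  have hdw : deriv w = fun t => p t - δ t / 2 := funext (fun t => (hwd t).deriv)
  have hδdd : ∀ t, HasDerivAt δ (deriv δ t) t := fun t => (hδd t).differentiableAt.hasDerivAt
  have hddw : ∀ t, deriv (deriv w) t = (1 - p t ^ 2) / 2 * (1 - χ t) - deriv δ t / 2 := fun t => by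
    rw [hdw]
    exact ((hpd t).sub ((hδdd t).div_const 2)).deriv
  set β : ℝ → ℝ := fun t => -(δ t / 2) with hβ
  have hβc : ContDiff ℝ ∞ β := (hδc.div_const 2).neg
  have hdβ : ∀ t, deriv β t = -(deriv δ t / 2) := fun t =>
    (((hδdd t).div_const 2).neg).deriv
  refine ⟨w, β, m * Real.exp (I t2), tm + F t2, t2, hwc, hβc, ?_, by positivity, ?_, ?_, ?_, ?_⟩
  · intro t ht
    constructor
    · simp only [hw, hφ]
      rw [hFleft t ht, sub_zero, show I t = 0 from prim_left hgIleft ht, add_zero]
    · simp only [hβ]; rw [hδleft t ht]; simp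
  · calc m * Real.exp (I t2) ≤ m * Real.exp (-N) :=
        mul_le_mul_of_nonneg_left (Real.exp_le_exp.mpr hI2) hm.le
      _ < ε := hN
  · intro t ht
    constructor
    · have hIt : I t = I t2 := by
        have e1 := prim_add hgIc.continuous t1 t2 t
        have e2 := integral_eq_zero (g := gI) ht (fun s hs => hgIright s hs)
        have e5 : I t = prim gI t1 t := rfl
        rw [e5, e1, e2, add_zero]
      simp only [hw, hφ]
      rw [hFright t ht, hIt, ← mul_assoc, Real.log_mul (by positivity) (Real.exp_pos _).ne',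
        Real.log_exp, sub_sub]
      ring
    · simp only [hβ]; rw [hδright t (by linarith)]; simp
  · intro t ht
    rw [hdw]
    simp only [hβ]
    rcases le_total t t1 with h | h
    · have h1 : 0 < p t := by
        simp only [hp, hφ]
        rw [hFleft t h]
        exact th_pos (by linarith)
      linarith
    · have := hppos t h
      linarith
  · intro t
    rw [hddw, hdβ, hdw, abs_neg, abs_div]
    simp only [hβ]
    have := hkey t
    have h2 : |(2 : ℝ)| = 2 := abs_of_pos (by norm_num)
    rw [h2]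
    nlinarith [this]

end Pool.Agent.Lib.MP_c642b3_mp
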