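import Mathlib
import Pool.Agent.Lib.MP_c642b3_mp.Defs
import Pool.Agent.Lib.MP_c642b3_mp.Calc
import Pool.Agent.Lib.MP_c642b3_mp.Compare
import Pool.Agent.Lib.MP_c642b3_mp.Profile

namespace Pool.Agent.Lib.MP_c642b3_mp

open scoped InnerProductSpace ContDiff Topology

/-! ### locality -/

theorem pd_congr {f f' : E3 → ℝ} {x : E3} (h : f =ᶠ[𝓝 x] f') (i : Fin 3) :
    pd i f x = pd i f' x := by
  unfold pd
  rw [h.fderiv_eq]

theorem pd_congr' {f f' : E3 → ℝ} {x : E3} (h : f =ᶠ[𝓝 x] f') (i : Fin 3) :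
    pd i f =ᶠ[𝓝 x] pd i f' := by
  filter_upwards [h.eventuallyEq_nhds] with y hy
  exact pd_congr hy i

theorem entry_congr {g g' : TF} {x : E3} (h : g =ᶠ[𝓝 x] g') (i j : Fin 3) :
    (fun y => g y i j) =ᶠ[𝓝 x] (fun y => g' y i j) := by
  filter_upwards [h] with y hy
  rw [hy]

theorem christoffel_congr {g g' : TF} {x : E3} (h : g =ᶠ[𝓝 x] g') (k i j : Fin 3) :
    christoffel g k i j x = christoffel g' k i j x := by
  unfold christoffel
  rw [h.self_of_nhds]
  congr 1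
  apply Finset.sum_congr rfl
  intro l _
  rw [pd_congr (entry_congr h j l), pd_congr (entry_congr h i l), pd_congr (entry_congr h i j)]

theorem christoffel_congr' {g g' : TF} {x : E3} (h : g =ᶠ[𝓝 x] g') (k i j : Fin 3) :
    christoffel g k i j =ᶠ[𝓝 x] christoffel g' k i j := by
  filter_upwards [h.eventuallyEq_nhds] with y hy
  exact christoffel_congr hy k i j

theorem ricci_congr {g g' : TF} {x : E3} (h : g =ᶠ[𝓝 x] g') (i j : Fin 3) :
    ricci g i j x = ricci g' i j x := by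
  unfold ricci
  simp only [christoffel_congr h, pd_congr (christoffel_congr' h _ _ _)]

theorem scal_congr {g g' : TF} {x : E3} (h : g =ᶠ[𝓝 x] g') : scal g x = scal g' x := by
  unfold scal
  simp only [ricci_congr h, h.self_of_nhds]

theorem trg_congr {g g' h h' : TF} {x : E3} (hg : g x = g' x) (hh : h x = h' x) :
    trg g h x = trg g' h' x := by
  unfold trg
  rw [hg, hh]

theorem normSq2_congr {g g' h h' : TF} {x : E3} (hg : g x = g' x) (hh : h x = h' x) :
    normSq2 g h x = normSq2 g' h' x := by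
  unfold normSq2
  rw [hg, hh]

theorem cov_congr {g g' h h' : TF} {x : E3} (hg : g =ᶠ[𝓝 x] g') (hh : h =ᶠ[𝓝 x] h')
    (k i j : Fin 3) : cov g h k i j x = cov g' h' k i j x := by
  unfold cov
  rw [pd_congr (entry_congr hh i j)]
  simp only [christoffel_congr hg, hh.self_of_nhds]

theorem divg_congr {g g' h h' : TF} {x : E3} (hg : g =ᶠ[𝓝 x] g') (hh : h =ᶠ[𝓝 x] h')
    (j : Fin 3) : divg g h j x = divg g' h' j x := by
  unfold divg
  simp only [cov_congr hg hh, hg.self_of_nhds]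

theorem mom_congr {g g' h h' : TF} {x : E3} (hg : g =ᶠ[𝓝 x] g') (hh : h =ᶠ[𝓝 x] h')
    (j : Fin 3) : mom g h j x = mom g' h' j x := by
  unfold mom
  rw [divg_congr hg hh]
  congr 1
  apply pd_congr
  filter_upwards [hg, hh] with y hy hy'
  exact trg_congr hy hy'

theorem DEC_congr {g g' h h' : TF} {x : E3} (hg : g =ᶠ[𝓝 x] g') (hh : h =ᶠ[𝓝 x] h') :
    DEC g h x ↔ DEC g' h' x := by
  unfold DEC momNorm mu
  simp only [mom_congr hg hh, scal_congr hg, normSq2_congr hg.self_of_nhds hh.self_of_nhds,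
    trg_congr hg.self_of_nhds hh.self_of_nhds, hg.self_of_nhds]

theorem gradSq_congr {g g' : TF} {x : E3} (hg : g x = g' x) (f : E3 → ℝ) :
    gradSq g f x = gradSq g' f x := by
  unfold gradSq
  rw [hg]

theorem proj_congr {g g' : TF} {x : E3} (hg : g x = g' x) (f : E3 → ℝ) (i j : Fin 3) :
    proj g f i j x = proj g' f i j x := by
  unfold proj nrm
  rw [gradSq_congr hg, hg]

theorem trS_congr {g g' h h' : TF} {x : E3} (hg : g x = g' x) (hh : h x = h' x) (f : E3 → ℝ) :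
    trS g h f x = trS g' h' f x := by
  unfold trS
  simp only [proj_congr hg, hh]

theorem meanCurv_congr {g g' : TF} {x : E3} (hg : g =ᶠ[𝓝 x] g') (f : E3 → ℝ) :
    meanCurv g f x = meanCurv g' f x := by
  unfold meanCurv
  simp only [proj_congr hg.self_of_nhds, gradSq_congr hg.self_of_nhds, christoffel_congr hg]

/-! ### radial data in terms of `w`, `α`, `β` -/

/-- metric with area radius `e^w` as a function of `t = log ρ` -/
noncomputable def gW (w : ℝ → ℝ) : TF := cMetric (fun t => w t - t)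

/-- second fundamental form with `r a = α`, `r b = β` -/
noncomputable def hW (w α β : ℝ → ℝ) : TF :=
  radH (fun t => α t * Real.exp (w t - 2 * t)) (fun t => β t * Real.exp (w t - 2 * t))

theorem DEC_gW {w α β : ℝ → ℝ} (hw : ContDiff ℝ ∞ w) (hα : ContDiff ℝ ∞ α)
    (hβ : ContDiff ℝ ∞ β) {x : E3} (hx : x ≠ 0) :
    DEC (gW w) (hW w α β) x ↔
      2 * |deriv w (Real.log ‖x‖) * α (Real.log ‖x‖) - deriv β (Real.log ‖x‖)| ≤
        1 - deriv w (Real.log ‖x‖) ^ 2 - 2 * deriv (deriv w) (Real.log ‖x‖) +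
          β (Real.log ‖x‖) ^ 2 + 2 * α (Real.log ‖x‖) * β (Real.log ‖x‖) := by
  have hwd : ∀ t, HasDerivAt w (deriv w t) t := fun t =>
    (hw.differentiable (by simp) t).hasDerivAt
  have hαd : ∀ t, HasDerivAt α (deriv α t) t := fun t =>
    (hα.differentiable (by simp) t).hasDerivAt
  have hβd : ∀ t, HasDerivAt β (deriv β t) t := fun t =>
    (hβ.differentiable (by simp) t).hasDerivAt
  have hw' : ContDiff ℝ ∞ (deriv w) := ((contDiff_infty_iff_deriv).mp hw).2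
  have hwd2 : ∀ t, HasDerivAt (deriv w) (deriv (deriv w) t) t := fun t =>
    (hw'.differentiable (by simp) t).hasDerivAt
  have hψd : ∀ t, HasDerivAt (fun t => w t - t) (deriv w t - 1) t := fun t =>
    (hwd t).sub (hasDerivAt_id t)
  have hψ : Differentiable ℝ (fun t => w t - t) := fun t => (hψd t).differentiableAt
  have hdψ : deriv (fun t => w t - t) = fun t => deriv w t - 1 := funext (fun t => (hψd t).deriv)
  have hψd2 : ∀ t, HasDerivAt (deriv (fun t => w t - t)) (deriv (deriv w) t) t := fun t => by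
    rw [hdψ]; exact (hwd2 t).sub_const 1
  have hψ2 : Differentiable ℝ (deriv (fun t => w t - t)) := fun t => (hψd2 t).differentiableAt
  have hed : ∀ t, HasDerivAt (fun t => Real.exp (w t - 2 * t))
      ((deriv w t - 2) * Real.exp (w t - 2 * t)) t := fun t => by
    have h1 : HasDerivAt (fun t => w t - 2 * t) (deriv w t - 2) t := by
      have := (hwd t).sub ((hasDerivAt_id t).const_mul 2)
      refine this.congr_deriv ?_
      simp
    refine h1.exp.congr_deriv ?_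
    ring
  have hAd : ∀ t, HasDerivAt (fun t => α t * Real.exp (w t - 2 * t))
      ((deriv α t + α t * (deriv w t - 2)) * Real.exp (w t - 2 * t)) t := fun t => by
    refine ((hαd t).mul (hed t)).congr_deriv ?_
    ring
  have hBd : ∀ t, HasDerivAt (fun t => β t * Real.exp (w t - 2 * t))
      ((deriv β t + β t * (deriv w t - 2)) * Real.exp (w t - 2 * t)) t := fun t => by
    refine ((hβd t).mul (hed t)).congr_deriv ?_
    ring
  unfold DEC gW hW
  rw [momNorm_radH hψ (fun t => (hAd t).differentiableAt) (fun t => (hBd t).differentiableAt) hx,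
    mu_radH hψ hψ2 hx, (hBd _).deriv, (hψd _).deriv, (hψd2 _).deriv]
  have hρ : 0 < ‖x‖ := norm_pos_iff.mpr hx
  set t := Real.log ‖x‖ with ht
  have hexp : Real.exp t = ‖x‖ := Real.exp_log hρ
  have e1 : Real.exp (-(w t - t)) = ‖x‖ * Real.exp (-(w t)) := by
    rw [neg_sub, sub_eq_add_neg, Real.exp_add, hexp]
  have e2 : Real.exp (-(2 * (w t - t))) = (‖x‖ * Real.exp (-(w t))) ^ 2 := by
    rw [← e1, ← Real.exp_nat_mul]; congr 1; push_cast; ring
  have e3 : Real.exp (w t - 2 * t) = Real.exp (w t) * (‖x‖⁻¹) ^ 2 := by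
    have : w t - 2 * t = w t + ((-t) + (-t)) := by ring
    rw [this, Real.exp_add, Real.exp_add, Real.exp_neg, hexp]
    ring
  have e4 : Real.exp (-(w t)) = (Real.exp (w t))⁻¹ := Real.exp_neg _
  have hW : 0 < Real.exp (w t) := Real.exp_pos _
  rw [e1, e2, e3, e4]
  set r := Real.exp (w t) with hr
  have hnum : (α t * (r * ‖x‖⁻¹ ^ 2) - β t * (r * ‖x‖⁻¹ ^ 2)) +
      (deriv w t - 1) * (α t * (r * ‖x‖⁻¹ ^ 2) + β t * (r * ‖x‖⁻¹ ^ 2)) -
      (deriv β t + β t * (deriv w t - 2)) * (r * ‖x‖⁻¹ ^ 2) =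
      (r * ‖x‖⁻¹ ^ 2) * (deriv w t * α t - deriv β t) := by ring
  rw [hnum, abs_mul, abs_of_pos (by positivity : 0 < r * ‖x‖⁻¹ ^ 2)]
  have hL : 2 * (‖x‖ * r⁻¹) ^ 3 * ‖x‖⁻¹ * (r * ‖x‖⁻¹ ^ 2 * |deriv w t * α t - deriv β t|) =
      (r⁻¹) ^ 2 * (2 * |deriv w t * α t - deriv β t|) := by
    field_simp
  have hR : -(‖x‖ * r⁻¹) ^ 2 * (‖x‖ ^ 2)⁻¹ *
      (2 * deriv (deriv w) t + 2 * (deriv w t - 1) + (deriv w t - 1) ^ 2) +
      ((‖x‖ * r⁻¹) ^ 2) ^ 2 * (2 * (α t * (r * ‖x‖⁻¹ ^ 2)) * (β t * (r * ‖x‖⁻¹ ^ 2)) +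
        (β t * (r * ‖x‖⁻¹ ^ 2)) ^ 2) =
      (r⁻¹) ^ 2 * (1 - deriv w t ^ 2 - 2 * deriv (deriv w) t + β t ^ 2 + 2 * α t * β t) := by
    field_simp
    ring
  rw [hL, hR]
  exact mul_le_mul_iff_right₀ (by positivity)

/-! ### Schwarzschild ends -/

theorem exp_schw (M c : ℝ) (hM : 0 < M) {ρ : ℝ} (hρ : 0 < ρ) :
    Real.exp (2 * (Real.log (2 * M) + 2 * Real.log (Real.cosh ((Real.log ρ - c) / 2)) -
      Real.log ρ)) = (M / 2 * Real.exp (-c)) ^ 2 * (1 + Real.exp c / ρ) ^ 4 := by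
  have hch : 0 < Real.cosh ((Real.log ρ - c) / 2) := Real.cosh_pos _
  have h1 : Real.exp (Real.log (2 * M) + 2 * Real.log (Real.cosh ((Real.log ρ - c) / 2)) -
      Real.log ρ) = 2 * M * Real.cosh ((Real.log ρ - c) / 2) ^ 2 / ρ := by
    rw [Real.exp_sub, Real.exp_add, Real.exp_log (by positivity), Real.exp_log hρ]
    congr 2
    rw [two_mul, Real.exp_add, Real.exp_log hch, sq]
  have h2 : Real.cosh ((Real.log ρ - c) / 2) ^ 2 =
      (ρ * Real.exp (-c) + Real.exp c / ρ + 2) / 4 := by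
    rw [Real.cosh_eq]
    have e1 : Real.exp ((Real.log ρ - c) / 2) * Real.exp (-((Real.log ρ - c) / 2)) = 1 := by
      rw [← Real.exp_add]; simp
    have e2 : Real.exp ((Real.log ρ - c) / 2) ^ 2 = ρ * Real.exp (-c) := by
      rw [← Real.exp_nat_mul]
      have : ((2 : ℕ) : ℝ) * ((Real.log ρ - c) / 2) = Real.log ρ + -c := by push_cast; ring
      rw [this, Real.exp_add, Real.exp_log hρ]
    have e3 : Real.exp (-((Real.log ρ - c) / 2)) ^ 2 = Real.exp c / ρ := by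
      rw [← Real.exp_nat_mul]
      have : ((2 : ℕ) : ℝ) * (-((Real.log ρ - c) / 2)) = c - Real.log ρ := by push_cast; ring
      rw [this, Real.exp_sub, Real.exp_log hρ]
    rw [← e2, ← e3]
    linear_combination (-1 / 2 + 1) * e1
  have hc : Real.exp (-c) * Real.exp c = 1 := by rw [← Real.exp_add]; simp
  have h3 : 2 * M * Real.cosh ((Real.log ρ - c) / 2) ^ 2 / ρ =
      (M / 2 * Real.exp (-c)) * (1 + Real.exp c / ρ) ^ 2 := by
    rw [h2]
    field_simp
    linear_combination (-(4 * Real.exp c + 8 * ρ)) * hc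
  rw [two_mul, Real.exp_add, h1, h3]
  ring

theorem gW_eq {w : ℝ → ℝ} {M c : ℝ} (hM : 0 < M) {x : E3} (hx : x ≠ 0)
    (hw : w (Real.log ‖x‖) =
      Real.log (2 * M) + 2 * Real.log (Real.cosh ((Real.log ‖x‖ - c) / 2))) :
    gW w x = (M / 2 * Real.exp (-c)) ^ 2 • schw M ((M / 2 * Real.exp (-c)) • x) := by
  have hρ : 0 < ‖x‖ := norm_pos_iff.mpr hx
  have hl : 0 < M / 2 * Real.exp (-c) := by positivity
  have hc : Real.exp (-c) * Real.exp c = 1 := by rw [← Real.exp_add]; simp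
  ext i j
  simp only [gW, cMetric, Matrix.of_apply, schw, Matrix.smul_apply, smul_eq_mul, norm_smul,
    Matrix.one_apply, dl]
  rw [hw, exp_schw M c hM hρ, Real.norm_of_nonneg hl.le]
  have : M / (2 * (M / 2 * Real.exp (-c) * ‖x‖)) = Real.exp c / ‖x‖ := by
    rw [div_eq_div_iff (by positivity) hρ.ne']
    linear_combination (-(M * ‖x‖)) * hc
  rw [this]
  ring

theorem hW_zero {w β : ℝ → ℝ} {x : E3} (hβ : β (Real.log ‖x‖) = 0) :
    hW w (fun _ => 0) β x = 0 := by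
  ext i j
  simp [hW, radH, hβ]

theorem gW_smooth {w : ℝ → ℝ} (hw : ContDiff ℝ ∞ w) {x : E3} (hx : x ≠ 0) (i j : Fin 3) :
    ContDiffAt ℝ ∞ (fun y => gW w y i j) x := by
  have hlog : ContDiffAt ℝ ∞ (fun y : E3 => Real.log ‖y‖) x :=
    (contDiffAt_norm ℝ hx).log (norm_ne_zero_iff.mpr hx)
  have h1 : ContDiffAt ℝ ∞ (fun y : E3 => w (Real.log ‖y‖)) x := hw.contDiffAt.comp x hlog
  simp only [gW, cMetric, Matrix.of_apply]
  exact ((contDiffAt_const.mul (h1.sub hlog)).exp).mul contDiffAt_const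

theorem hW_smooth {w β : ℝ → ℝ} (hw : ContDiff ℝ ∞ w) (hβ : ContDiff ℝ ∞ β) {x : E3}
    (hx : x ≠ 0) (i j : Fin 3) :
    ContDiffAt ℝ ∞ (fun y => hW w (fun _ => 0) β y i j) x := by
  have hlog : ContDiffAt ℝ ∞ (fun y : E3 => Real.log ‖y‖) x :=
    (contDiffAt_norm ℝ hx).log (norm_ne_zero_iff.mpr hx)
  have h1 : ContDiffAt ℝ ∞ (fun y : E3 => w (Real.log ‖y‖)) x := hw.contDiffAt.comp x hlog
  have h2 : ContDiffAt ℝ ∞ (fun y : E3 => β (Real.log ‖y‖)) x := hβ.contDiffAt.comp x hlog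
  have hB : ContDiffAt ℝ ∞ (fun y : E3 => β (Real.log ‖y‖) *
      Real.exp (w (Real.log ‖y‖) - 2 * Real.log ‖y‖)) x :=
    h2.mul ((h1.sub (contDiffAt_const.mul hlog)).exp)
  have hA : ContDiffAt ℝ ∞ (fun y : E3 => (0 : ℝ) *
      Real.exp (w (Real.log ‖y‖) - 2 * Real.log ‖y‖)) x :=
    contDiffAt_const.mul ((h1.sub (contDiffAt_const.mul hlog)).exp)
  have hco : ∀ k : Fin 3, ContDiffAt ℝ ∞ (fun y : E3 => y k) x := fun k =>
    (EuclideanSpace.proj k : E3 →L[ℝ] ℝ).contDiff.contDiffAt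
  have hn : ContDiffAt ℝ ∞ (fun y : E3 => (‖y‖ ^ 2)⁻¹) x := by
    apply ContDiffAt.inv
    · exact (contDiff_norm_sq ℝ).contDiffAt
    · have := norm_pos_iff.mpr hx; positivity
  simp only [hW, radH, Matrix.of_apply]
  exact (hB.mul contDiffAt_const).add ((hA.sub hB).mul (hn.mul ((hco i).mul (hco j))))

/-! ### surfaces outside a ball -/

theorem IsSurface.compact {C : Set E3} {f : E3 → ℝ} (hf : IsSurface C f) :
    IsCompact {x : E3 | x ∉ C ∧ f x = 0} := by
  obtain ⟨V, hVo, hCV, hV⟩ := hf.inside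
  obtain ⟨R, hR⟩ := hf.outside
  set K : Set E3 := Metric.closedBall 0 R ∩ Vᶜ with hK
  have hKc : IsCompact K := (isCompact_closedBall 0 R).inter_right hVo.isClosed_compl
  have hKC : K ⊆ Cᶜ := fun x hx hxC => hx.2 (hCV hxC)
  have hfc : ContinuousOn f K := (hf.smooth.continuousOn).mono hKC
  have hcl : IsClosed (K ∩ f ⁻¹' {0}) :=
    hfc.preimage_isClosed_of_isClosed hKc.isClosed isClosed_singleton
  have heq : {x : E3 | x ∉ C ∧ f x = 0} = K ∩ f ⁻¹' {0} := by
    ext x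
    simp only [Set.mem_ofPred_eq, Set.mem_inter_iff, Set.mem_preimage, Set.mem_singleton_iff, hK,
      Metric.mem_closedBall, dist_zero_right, Set.mem_compl_iff]
    constructor
    · rintro ⟨hxC, hx0⟩
      refine ⟨⟨?_, ?_⟩, hx0⟩
      · by_contra h
        rw [not_le] at h
        have := hR x h
        linarith
      · intro hxV
        have := hV x hxV hxC
        linarith
    · rintro ⟨⟨h1, h2⟩, h3⟩
      exact ⟨fun hxC => h2 (hCV hxC), h3⟩
  rw [heq]
  exact hKc.of_isClosed_subset hcl Set.inter_subset_left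

/-- Outside the largest centred ball met by `S`, the defining function is nonnegative. -/
theorem IsSurface.nonneg_outside {C : Set E3} {f : E3 → ℝ}
    (hf : IsSurface C f) {x₀ : E3} {ρ₀ : ℝ} (hCb : ∀ x ∈ C, ‖x‖ < ρ₀) (hx₀ : ρ₀ < ‖x₀‖)
    (hmax : ∀ x, x ∉ C → f x = 0 → ‖x‖ ≤ ‖x₀‖) (hρ₀ : 0 < ρ₀) :
    ∀ y : E3, ‖x₀‖ ≤ ‖y‖ → 0 ≤ f y := by
  obtain ⟨R, hR⟩ := hf.outside
  have hcont : ∀ y : E3, ‖x₀‖ ≤ ‖y‖ → ContinuousOn (fun s : ℝ => f (s • y)) (Set.Ici 1) := by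
    intro y hy
    have h1 : ContinuousOn f Cᶜ := hf.smooth.continuousOn
    have h2 : Continuous (fun s : ℝ => s • y) := continuous_id.smul continuous_const
    refine h1.comp h2.continuousOn ?_
    intro s hs hsC
    have h3 := hCb _ hsC
    rw [norm_smul, Real.norm_eq_abs] at h3
    have hs1 : (1 : ℝ) ≤ s := hs
    rw [abs_of_nonneg (by linarith)] at h3
    have hy0 : 0 ≤ ‖y‖ := norm_nonneg y
    nlinarith
  -- strictly outside: positive
  have hstrict : ∀ y : E3, ‖x₀‖ < ‖y‖ → 0 < f y := by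
    intro y hy
    have hy0 : 0 < ‖y‖ := lt_trans (lt_trans hρ₀ hx₀) hy
    by_contra hneg
    rw [not_lt] at hneg
    -- a large multiple
    set s₁ : ℝ := max 1 ((R + 1) / ‖y‖) + 1 with hs₁
    have hs1 : (1 : ℝ) ≤ s₁ := by
      have := le_max_left 1 ((R + 1) / ‖y‖)
      linarith
    have hbig : R < ‖s₁ • y‖ := by
      rw [norm_smul, Real.norm_eq_abs, abs_of_nonneg (by linarith)]
      have h2 : (R + 1) / ‖y‖ ≤ s₁ := by
        have := le_max_right 1 ((R + 1) / ‖y‖)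
        linarith
      have h3 : R + 1 ≤ s₁ * ‖y‖ := by
        rwa [div_le_iff₀ hy0] at h2
      linarith
    have hpos := hR _ hbig
    have hc : ContinuousOn (fun s : ℝ => f (s • y)) (Set.Icc 1 s₁) :=
      (hcont y hy.le).mono Set.Icc_subset_Ici_self
    have hivt := intermediate_value_Icc hs1 hc
    have hmem : (0 : ℝ) ∈ Set.Icc (f ((1 : ℝ) • y)) (f (s₁ • y)) := by
      rw [one_smul]; exact ⟨hneg, hpos.le⟩
    obtain ⟨s, hs, hs0⟩ := hivt hmem
    have hnorm : ‖s • y‖ = s * ‖y‖ := by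
      rw [norm_smul, Real.norm_eq_abs, abs_of_nonneg (by linarith [hs.1])]
    have hge : ‖y‖ ≤ ‖s • y‖ := by rw [hnorm]; nlinarith [hs.1]
    have hnC : s • y ∉ C := fun hC' => by
      have := hCb _ hC'
      linarith
    have := hmax _ hnC hs0
    linarith
  intro y hy
  rcases hy.lt_or_eq with h | h
  · exact (hstrict y h).le
  · have hy0 : 0 < ‖y‖ := by rw [← h]; exact lt_trans hρ₀ hx₀
    have hc : ContinuousWithinAt (fun s : ℝ => f (s • y)) (Set.Ioi 1) 1 :=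
      ((hcont y hy) 1 (Set.mem_Ici.mpr le_rfl)).mono Set.Ioi_subset_Ici_self
    have h1 : Filter.Tendsto (fun s : ℝ => f (s • y)) (𝓝[>] 1) (𝓝 (f ((1 : ℝ) • y))) := hc
    rw [one_smul] at h1
    refine ge_of_tendsto h1 ?_
    filter_upwards [self_mem_nhdsWithin] with s hs
    have hs' : (1 : ℝ) < s := hs
    apply (hstrict _ _).le
    rw [norm_smul, Real.norm_eq_abs, abs_of_pos (by linarith), h]
    nlinarith

/-- **Main theorem**, with the explicit form of the data outside the ball. -/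
theorem small_mass_extension' (C : Set E3) (hC : IsClosed C) (m ρ₀ ρ₁ ε : ℝ) (hm : 0 < m)
    (hρ₀ : m / 2 < ρ₀) (h01 : ρ₀ < ρ₁) (hε : 0 < ε) (hCb : ∀ x ∈ C, ‖x‖ < ρ₀)
    (g₀ h₀ : TF) (hdata : IsData C g₀ h₀)
    (hS : ∀ x : E3, ρ₀ ≤ ‖x‖ → g₀ x = schw m x ∧ h₀ x = 0) :
    ∃ (g h : TF) (M : ℝ), IsData C g h ∧
      (∀ x : E3, ‖x‖ ≤ ρ₁ → g x = g₀ x ∧ h x = h₀ x) ∧
      SchwarzschildEnd g h M ∧ 0 < M ∧ M < ε ∧
      (∀ f : E3 → ℝ, IsApparentHorizon C g h f → ∀ x ∉ C, f x = 0 → ‖x‖ ≤ ρ₀) ∧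
      ∃ w β : ℝ → ℝ, ∀ x : E3, ρ₁ < ‖x‖ → g x = gW w x ∧ h x = hW w (fun _ => 0) β x := by
  have hρ₀pos : 0 < ρ₀ := by linarith
  have hρ₁pos : 0 < ρ₁ := by linarith
  have hlogρ₁ : Real.log (m / 2) < Real.log ρ₁ :=
    Real.log_lt_log (by positivity) (by linarith)
  obtain ⟨w, β, M, c, t2, hw, hβ, hin, hM0, hMε, hout, hp, hdec⟩ :=
    profile_exists m (Real.log ρ₁) ε hm hlogρ₁ hε
  -- radial data equal Schwarzschild inside
  have hin' : ∀ x : E3, x ≠ 0 → ‖x‖ ≤ ρ₁ → gW w x = schw m x ∧ hW w (fun _ => 0) β x = 0 := by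
    intro x hx hxle
    have hρ : 0 < ‖x‖ := norm_pos_iff.mpr hx
    have hlog : Real.log ‖x‖ ≤ Real.log ρ₁ := Real.log_le_log hρ hxle
    obtain ⟨h1, h2⟩ := hin _ hlog
    refine ⟨?_, hW_zero h2⟩
    have h3 := gW_eq hm hx h1
    have h4 : m / 2 * Real.exp (-Real.log (m / 2)) = 1 := by
      rw [Real.exp_neg, Real.exp_log (by positivity)]
      field_simp
    rw [h4] at h3
    simpa using h3
  set g : TF := fun x => if ‖x‖ ≤ ρ₁ then g₀ x else gW w x with hg
  set h : TF := fun x => if ‖x‖ ≤ ρ₁ then h₀ x else hW w (fun _ => 0) β x with hh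
  -- germs
  have gin : ∀ x : E3, ‖x‖ < ρ₁ → g =ᶠ[𝓝 x] g₀ ∧ h =ᶠ[𝓝 x] h₀ := by
    intro x hx
    have hev : ∀ᶠ y : E3 in 𝓝 x, ‖y‖ < ρ₁ :=
      (isOpen_lt continuous_norm continuous_const).eventually_mem hx
    constructor
    · filter_upwards [hev] with y hy
      simp only [hg]; rw [if_pos hy.le]
    · filter_upwards [hev] with y hy
      simp only [hh]; rw [if_pos hy.le]
  have gout : ∀ x : E3, ρ₀ < ‖x‖ → g =ᶠ[𝓝 x] gW w ∧ h =ᶠ[𝓝 x] hW w (fun _ => 0) β := by
    intro x hx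
    have hev : ∀ᶠ y : E3 in 𝓝 x, ρ₀ < ‖y‖ :=
      (isOpen_lt continuous_const continuous_norm).eventually_mem hx
    have hne : ∀ y : E3, ρ₀ < ‖y‖ → y ≠ 0 := by
      intro y hy h0
      rw [h0, norm_zero] at hy
      linarith
    constructor
    · filter_upwards [hev] with y hy
      simp only [hg]
      split_ifs with hle
      · rw [(hS y hy.le).1, (hin' y (hne y hy) hle).1]
      · rfl
    · filter_upwards [hev] with y hy
      simp only [hh]
      split_ifs with hle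
      · rw [(hS y hy.le).2, (hin' y (hne y hy) hle).2]
      · rfl
  have hcase : ∀ x : E3, ‖x‖ < ρ₁ ∨ ρ₀ < ‖x‖ := fun x => by
    rcases lt_or_ge ‖x‖ ρ₁ with h | h
    · exact Or.inl h
    · exact Or.inr (by linarith)
  have hne0 : ∀ y : E3, ρ₀ < ‖y‖ → y ≠ 0 := by
    intro y hy h0
    rw [h0, norm_zero] at hy
    linarith
  have hCo : IsOpen Cᶜ := hC.isOpen_compl
  refine ⟨g, h, M, ⟨?_, ?_, ?_, ?_, ?_⟩, ?_, ?_, hM0, hMε, ?_, w, β, fun x hx => ?_⟩
  · intro i j x hx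
    rcases hcase x with h1 | h1
    · have h2 := (hdata.g_smooth i j x hx).contDiffAt (hCo.mem_nhds hx)
      exact (h2.congr_of_eventuallyEq (entry_congr (gin x h1).1 i j)).contDiffWithinAt
    · exact ((gW_smooth hw (hne0 x h1) i j).congr_of_eventuallyEq
        (entry_congr (gout x h1).1 i j)).contDiffWithinAt
  · intro i j x hx
    rcases hcase x with h1 | h1
    · have h2 := (hdata.h_smooth i j x hx).contDiffAt (hCo.mem_nhds hx)
      exact (h2.congr_of_eventuallyEq (entry_congr (gin x h1).2 i j)).contDiffWithinAt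
    · exact ((hW_smooth hw hβ (hne0 x h1) i j).congr_of_eventuallyEq
        (entry_congr (gout x h1).2 i j)).contDiffWithinAt
  · intro x hx
    rcases hcase x with h1 | h1
    · rw [(gin x h1).1.self_of_nhds]
      exact hdata.g_pos x hx
    · rw [(gout x h1).1.self_of_nhds]
      have : gW w x = Real.exp (2 * (w (Real.log ‖x‖) - Real.log ‖x‖)) •
          (1 : Matrix (Fin 3) (Fin 3) ℝ) := by
        ext i j
        simp [gW, cMetric, dl, Matrix.one_apply]
      rw [this]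
      exact Matrix.PosDef.one.smul (Real.exp_pos _)
  · intro x hx
    rcases hcase x with h1 | h1
    · rw [(gin x h1).2.self_of_nhds]
      exact hdata.h_symm x hx
    · rw [(gout x h1).2.self_of_nhds]
      ext i j
      simp only [Matrix.transpose_apply, hW, radH, Matrix.of_apply, dl]
      by_cases hij : i = j
      · subst hij; rfl
      · rw [if_neg hij, if_neg (fun h => hij h.symm), mul_comm (x j) (x i)]
  · intro x hx
    rcases hcase x with h1 | h1
    · rw [DEC_congr (gin x h1).1 (gin x h1).2]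
      exact hdata.dec x hx
    · rw [DEC_congr (gout x h1).1 (gout x h1).2, DEC_gW hw contDiff_const hβ (hne0 x h1)]
      have := hdec (Real.log ‖x‖)
      simp only [mul_zero, zero_sub, abs_neg, zero_mul, add_zero]
      exact this
  · intro x hx
    simp only [hg, hh]
    rw [if_pos hx, if_pos hx]
    exact ⟨rfl, rfl⟩
  · refine ⟨M / 2 * Real.exp (-c), by positivity, max (Real.exp t2) (ρ₁ + 1), ?_⟩
    intro x hx
    have h1 : ρ₁ < ‖x‖ := by
      have := le_max_right (Real.exp t2) (ρ₁ + 1)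
      linarith
    have h2 : Real.exp t2 ≤ ‖x‖ := le_trans (le_max_left _ _) hx
    have hρ : 0 < ‖x‖ := by linarith
    have hlog : t2 ≤ Real.log ‖x‖ := by
      rw [Real.le_log_iff_exp_le hρ]; exact h2
    obtain ⟨h3, h4⟩ := hout _ hlog
    rw [(gout x (by linarith)).1.self_of_nhds, (gout x (by linarith)).2.self_of_nhds]
    exact ⟨gW_eq hM0 (norm_pos_iff.mp hρ) h3, hW_zero h4⟩
  · intro f hf x hx hfx
    by_contra hcon
    rw [not_le] at hcon
    obtain ⟨hsurf, hhor⟩ := hf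
    have hcomp := hsurf.compact
    obtain ⟨x₀, hx₀, hmax⟩ := hcomp.exists_isMaxOn ⟨x, hx, hfx⟩ continuous_norm.continuousOn
    have hmax' : ∀ y, y ∉ C → f y = 0 → ‖y‖ ≤ ‖x₀‖ := fun y hy hy0 => hmax ⟨hy, hy0⟩
    have hx₀ρ : ρ₀ < ‖x₀‖ := lt_of_lt_of_le hcon (hmax' x hx hfx)
    have hx₀ne := hne0 x₀ hx₀ρ
    have hnn := hsurf.nonneg_outside hCb hx₀ρ hmax' hρ₀pos
    have hfsm : ∀ y : E3, ‖y‖ = ‖x₀‖ → ContDiffAt ℝ 2 f y := by
      intro y hy
      have hyC : y ∉ C := fun hyC => by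
        have := hCb y hyC
        linarith
      exact ((hsurf.smooth y hyC).contDiffAt (hCo.mem_nhds hyC)).of_le (by norm_cast)
    have hwd : Differentiable ℝ w := hw.differentiable (by simp)
    have hψ : Differentiable ℝ (fun t => w t - t) := hwd.sub differentiable_id
    have hlt := mean_curv_compare (A := fun t => (fun _ => (0 : ℝ)) t * Real.exp (w t - 2 * t))
      (B := fun t => β t * Real.exp (w t - 2 * t)) hψ hfsm hx₀ne hx₀.2 hnn
      (hsurf.regular x₀ hx₀.1 hx₀.2) (by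
        have hρx : 0 < ‖x₀‖ := norm_pos_iff.mpr hx₀ne
        have hd : deriv (fun t => w t - t) (Real.log ‖x₀‖) = deriv w (Real.log ‖x₀‖) - 1 :=
          ((hwd _).hasDerivAt.sub (hasDerivAt_id _)).deriv
        rw [hd]
        have e1 : Real.exp (w (Real.log ‖x₀‖) - 2 * Real.log ‖x₀‖) * ‖x₀‖ *
            Real.exp (-(w (Real.log ‖x₀‖) - Real.log ‖x₀‖)) = 1 := by
          conv_lhs => rw [← Real.exp_log hρx]
          rw [Real.log_exp, ← Real.exp_add, ← Real.exp_add]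
          rw [Real.exp_eq_one_iff]
          ring
        have e2 : β (Real.log ‖x₀‖) * Real.exp (w (Real.log ‖x₀‖) - 2 * Real.log ‖x₀‖) * ‖x₀‖ *
            Real.exp (-(w (Real.log ‖x₀‖) - Real.log ‖x₀‖)) = β (Real.log ‖x₀‖) := by
          linear_combination (β (Real.log ‖x₀‖)) * e1
        rw [e2]
        have h5 := hp (Real.log ‖x₀‖) (by
          apply Real.log_lt_log (by positivity)
          linarith)
        linarith)
    have heq := hhor x₀ hx₀.1 hx₀.2
    rw [meanCurv_congr (gout x₀ hx₀ρ).1,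
      trS_congr (gout x₀ hx₀ρ).1.self_of_nhds (gout x₀ hx₀ρ).2.self_of_nhds] at heq
    have h6 : trS (gW w) (hW w (fun _ => 0) β) f x₀ < meanCurv (gW w) f x₀ := hlt
    linarith
  · simp only [hg, hh]
    rw [if_neg (not_le.mpr hx), if_neg (not_le.mpr hx)]
    exact ⟨rfl, rfl⟩

/-- **Main theorem.** -/
theorem small_mass_extension (C : Set E3) (hC : IsClosed C) (m ρ₀ ρ₁ ε : ℝ) (hm : 0 < m)
    (hρ₀ : m / 2 < ρ₀) (h01 : ρ₀ < ρ₁) (hε : 0 < ε) (hCb : ∀ x ∈ C, ‖x‖ < ρ₀)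
    (g₀ h₀ : TF) (hdata : IsData C g₀ h₀)
    (hS : ∀ x : E3, ρ₀ ≤ ‖x‖ → g₀ x = schw m x ∧ h₀ x = 0) :
    ∃ (g h : TF) (M : ℝ), IsData C g h ∧
      (∀ x : E3, ‖x‖ ≤ ρ₁ → g x = g₀ x ∧ h x = h₀ x) ∧
      SchwarzschildEnd g h M ∧ 0 < M ∧ M < ε ∧
      ∀ f : E3 → ℝ, IsApparentHorizon C g h f → ∀ x ∉ C, f x = 0 → ‖x‖ ≤ ρ₀ := by
  obtain ⟨g, h, M, h1, h2, h3, h4, h5, h6, _⟩ :=
    small_mass_extension' C hC m ρ₀ ρ₁ ε hm hρ₀ h01 hε hCb g₀ h₀ hdata hS
  exact ⟨g, h, M, h1, h2, h3, h4, h5, h6⟩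

end Pool.Agent.Lib.MP_c642b3_mp
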