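import Mathlib

namespace Pool.Agent.Lib.MP_c642b3_mp

open Filter
open scoped Topology ContDiff

/-- Misner–Sharp mass as a function of `t = log ρ` -/
noncomputable def MS (w β : ℝ → ℝ) (t : ℝ) : ℝ :=
  Real.exp (w t) / 2 * (1 - deriv w t ^ 2 + β t ^ 2)

theorem MS_lower (w α β : ℝ → ℝ) (hw : ContDiff ℝ ∞ w) (hβ : ContDiff ℝ ∞ β) (t1 M : ℝ)
    (hdec : ∀ t, 2 * |deriv w t * α t - deriv β t| ≤
        1 - deriv w t ^ 2 - 2 * deriv (deriv w) t + β t ^ 2 + 2 * α t * β t)
    (hM : Tendsto (MS w β) atTop (𝓝 M))
    (hw1 : Tendsto (deriv w) atTop (𝓝 1)) (hβ0 : Tendsto β atTop (𝓝 0)) :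
    MS w β t1 ≤ M ∨ ∃ s, t1 ≤ s ∧ Real.exp (w s) / 2 ≤ M := by
  have hw' : ContDiff ℝ ∞ (deriv w) := ((contDiff_infty_iff_deriv).mp hw).2
  have hwd : ∀ t, HasDerivAt w (deriv w t) t := fun t =>
    (hw.differentiable (by simp) t).hasDerivAt
  have hwd2 : ∀ t, HasDerivAt (deriv w) (deriv (deriv w) t) t := fun t =>
    (hw'.differentiable (by simp) t).hasDerivAt
  have hβd : ∀ t, HasDerivAt β (deriv β t) t := fun t =>
    (hβ.differentiable (by simp) t).hasDerivAt
  set p : ℝ → ℝ := fun t => deriv w t - β t with hp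
  set n : ℝ → ℝ := fun t => deriv w t + β t with hn
  have hpc : Continuous p := hw'.continuous.sub hβ.continuous
  have hnc : Continuous n := hw'.continuous.add hβ.continuous
  have hp1 : Tendsto p atTop (𝓝 1) := by simpa using hw1.sub hβ0
  have hn1 : Tendsto n atTop (𝓝 1) := by simpa using hw1.add hβ0
  have hMSd : ∀ t, HasDerivAt (MS w β) (Real.exp (w t) / 2 *
      (deriv w t * (1 - deriv w t ^ 2 + β t ^ 2) - 2 * deriv w t * deriv (deriv w) t +
        2 * β t * deriv β t)) t := by
    intro t
    have h1 : HasDerivAt (fun t => Real.exp (w t) / 2) (Real.exp (w t) * deriv w t / 2) t :=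
      ((hwd t).exp).div_const 2
    have h2 : HasDerivAt (fun t => 1 - deriv w t ^ 2 + β t ^ 2)
        (-(2 * deriv w t * deriv (deriv w) t) + 2 * β t * deriv β t) t := by
      have h3 := ((hwd2 t).pow 2).const_sub 1
      have h4 := (hβd t).pow 2
      refine (h3.add h4).congr_deriv ?_
      simp
    refine (h1.mul h2).congr_deriv ?_
    ring
  -- if `p, n > 0` on `(s, ∞)` then `MS s ≤ M`
  have key : ∀ s, (∀ t > s, 0 < p t ∧ 0 < n t) → MS w β s ≤ M := by
    intro s hs
    have hmono : MonotoneOn (MS w β) (Set.Ici s) := by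
      apply monotoneOn_of_deriv_nonneg (convex_Ici s)
      · exact fun t _ => (hMSd t).continuousAt.continuousWithinAt
      · exact fun t _ => (hMSd t).differentiableAt.differentiableWithinAt
      · intro t ht
        rw [interior_Ici] at ht
        obtain ⟨h1, h2⟩ := hs t ht
        rw [(hMSd t).deriv]
        have hd := hdec t
        have hdw : |β t| < deriv w t := by
          rw [abs_lt]
          simp only [hp, hn] at h1 h2
          constructor <;> linarith
        have habs := neg_abs_le (β t * (deriv w t * α t - deriv β t))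
        have habs2 := le_abs_self (β t * (deriv w t * α t - deriv β t))
        rw [abs_mul] at habs habs2
        have hQ : 0 ≤ 1 - deriv w t ^ 2 - 2 * deriv (deriv w) t + β t ^ 2 + 2 * α t * β t :=
          le_trans (by positivity) hd
        have h3 : |β t| * (2 * |deriv w t * α t - deriv β t|) ≤
            deriv w t * (1 - deriv w t ^ 2 - 2 * deriv (deriv w) t + β t ^ 2 + 2 * α t * β t) :=
          mul_le_mul hdw.le hd (by positivity) (le_trans (abs_nonneg _) hdw.le)
        have h4 : 0 ≤ deriv w t * (1 - deriv w t ^ 2 + β t ^ 2) -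
            2 * deriv w t * deriv (deriv w) t + 2 * β t * deriv β t := by
          nlinarith
        have hE := Real.exp_pos (w t)
        positivity
    refine ge_of_tendsto hM ?_
    filter_upwards [eventually_ge_atTop s] with t ht
    exact hmono Set.self_mem_Ici ht ht
  -- eventually both positive
  obtain ⟨T, hT⟩ : ∃ T, ∀ t ≥ T, 0 < p t ∧ 0 < n t := by
    have e1 : ∀ᶠ t in atTop, 0 < p t := hp1.eventually (lt_mem_nhds one_pos)
    have e2 : ∀ᶠ t in atTop, 0 < n t := hn1.eventually (lt_mem_nhds one_pos)
    obtain ⟨T, hT⟩ := eventually_atTop.mp (e1.and e2)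
    exact ⟨T, hT⟩
  -- sign propagation: if `p n > 0` on `(s, ∞)` then both are positive there
  have hsign : ∀ s, (∀ t > s, 0 < p t * n t) → ∀ t > s, 0 < p t ∧ 0 < n t := by
    intro s hs t ht
    have haux : ∀ f : ℝ → ℝ, Continuous f → (∀ u > s, f u ≠ 0) → (∀ u ≥ T, 0 < f u) → 0 < f t := by
      intro f hf hne hpos
      by_contra hcon
      rw [not_lt] at hcon
      have hmT : 0 < f (max t T) := hpos _ (le_max_right _ _)
      have hivt := intermediate_value_Icc (le_max_left t T) hf.continuousOn
      obtain ⟨u, hu, hu0⟩ := hivt ⟨hcon, hmT.le⟩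
      exact hne u (lt_of_lt_of_le ht hu.1) hu0
    constructor
    · exact haux p hpc (fun u hu h0 => by have := hs u hu; rw [h0, zero_mul] at this; exact lt_irrefl _ this)
        (fun u hu => (hT u hu).1)
    · exact haux n hnc (fun u hu h0 => by have := hs u hu; rw [h0, mul_zero] at this; exact lt_irrefl _ this)
        (fun u hu => (hT u hu).2)
  by_cases hex : ∃ t, t1 ≤ t ∧ p t * n t ≤ 0
  · right
    set A : Set ℝ := {t | t1 ≤ t ∧ p t * n t ≤ 0} with hA
    have hAne : A.Nonempty := hex
    have hAbdd : BddAbove A := ⟨T, fun t ht => by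
      by_contra hcon
      rw [not_le] at hcon
      have := hT t hcon.le
      have h2 := mul_pos this.1 this.2
      linarith [ht.2]⟩
    have hAcl : IsClosed A := by
      have h1 : IsClosed {t : ℝ | t1 ≤ t} := isClosed_Ici
      have h2 : IsClosed {t : ℝ | p t * n t ≤ 0} :=
        isClosed_le (hpc.mul hnc) continuous_const
      exact h1.inter h2
    set s := sSup A with hs
    have hsA : s ∈ A := hAcl.csSup_mem hAne hAbdd
    have hgt : ∀ t > s, 0 < p t * n t := by
      intro t ht
      by_contra hcon
      rw [not_lt] at hcon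
      have : t ∈ A := ⟨le_trans hsA.1 ht.le, hcon⟩
      have := le_csSup hAbdd this
      linarith
    have hzero : p s * n s = 0 := by
      apply le_antisymm hsA.2
      have hlim : Tendsto (fun t => p t * n t) (𝓝[>] s) (𝓝 (p s * n s)) :=
        ((hpc.mul hnc).tendsto s).mono_left nhdsWithin_le_nhds
      refine ge_of_tendsto hlim ?_
      filter_upwards [self_mem_nhdsWithin] with t ht
      exact (hgt t ht).le
    have h1 := key s (hsign s hgt)
    refine ⟨s, hsA.1, ?_⟩
    have h2 : MS w β s = Real.exp (w s) / 2 := by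
      unfold MS
      have : 1 - deriv w s ^ 2 + β s ^ 2 = 1 - p s * n s := by simp only [hp, hn]; ring
      rw [this, hzero]; ring
    linarith
  · left
    push Not at hex
    rcases hex t1 le_rfl with h0
    exact key t1 (hsign t1 (fun t ht => hex t ht.le))

end Pool.Agent.Lib.MP_c642b3_mp
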