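import Mathlib
import Pool.Agent.Lib.MP_c642b3_mp.Defs

/-!
# The rotationally symmetric class of extensions of a Schwarzschild sphere

`Σ = {|x| = ρ₁}` in the time-symmetric Schwarzschild slice of mass `m > 0` on `ℝ³ ∖ {0}`
(isotropic coordinates), outside the horizon: `ρ₁ > m / 2`.
-/

namespace Pool.Agent.Lib.MP_c642b3_mp

open Filter Bornology
open scoped Topology

/-- `(g,h)` is rotationally symmetric on `ℝ³ ∖ {0}`, written in isotropic coordinates:
`g_ij = F(|x|) δ_ij` and `h_ij = B(|x|) δ_ij + D(|x|) x_i x_j`. -/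
def RotSym (g h : TF) : Prop :=
  ∃ F B D : ℝ → ℝ, ∀ x : E3, x ≠ 0 → ∀ i j : Fin 3,
    g x i j = F ‖x‖ * (if i = j then 1 else 0) ∧
    h x i j = B ‖x‖ * (if i = j then 1 else 0) + D ‖x‖ * (x i * x j)

/-- Rotationally symmetric extensions of the Schwarzschild data across `Σ = {|x| = ρ₁}`: smooth
data on `ℝ³ ∖ {0}` with `μ ≥ |J|`, equal to the Schwarzschild data for `0 < |x| ≤ ρ₁`. -/
structure RotExtension (m ρ₁ : ℝ) (g h : TF) : Prop where
  data : IsData {0} g h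
  rot : RotSym g h
  inner : ∀ x : E3, x ≠ 0 → ‖x‖ ≤ ρ₁ → g x = schw m x ∧ h x = 0

/-- The integrand `(∂_j g_ij - ∂_i g_jj) x_i / |x|` of the ADM surface integral. -/
noncomputable def admFlux (g : TF) (x : E3) : ℝ :=
  ∑ i, ∑ j, (pd j (fun y => g y i j) x - pd i (fun y => g y j j) x) * (x i / ‖x‖)

/-- The end at infinity is asymptotically flat with total mass `M`: in the coordinates `y = c x`
the metric is `δ + O(1/|y|)` with first derivatives `O(1/|y|²)`, `h = O(1/|y|²)`, and the ADM mass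
`lim (1/16π) ∮_{|y| = r} (∂_j g_ij - ∂_i g_jj) ν^i dA` is `M`. (For a rotationally symmetric metric
the integrand is constant on spheres, so the integral over `|x| = r` is `4π r²` times its value;
passing from `x` to `y = c x` divides the integral by `c`.) -/
def RotMass (g h : TF) (M : ℝ) : Prop :=
  ∃ c K R : ℝ, 0 < c ∧
    (∀ x : E3, R ≤ ‖x‖ → ∀ i j : Fin 3, ‖x‖ * |g x i j - c ^ 2 * (if i = j then 1 else 0)| ≤ K) ∧
    (∀ x : E3, R ≤ ‖x‖ → ∀ i j k : Fin 3, ‖x‖ ^ 2 * |pd k (fun y => g y i j) x| ≤ K) ∧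
    (∀ x : E3, R ≤ ‖x‖ → ∀ i j : Fin 3, ‖x‖ ^ 2 * |h x i j| ≤ K) ∧
    Tendsto (fun x => ‖x‖ ^ 2 * admFlux g x / (4 * c)) (cobounded E3) (𝓝 M)

/-- Masses of the rotationally symmetric extensions in which `Σ` is outer-minimizing, i.e.
no round sphere `{|x| = ρ}`, `ρ ≥ ρ₁`, has smaller area than `Σ`
(the area of `{|x| = ρ}` is `4π ρ² g_00`). -/
def outerMasses (m ρ₁ : ℝ) : Set ℝ :=
  {M | ∃ g h : TF, RotExtension m ρ₁ g h ∧ RotMass g h M ∧
    ∀ x y : E3, ‖x‖ = ρ₁ → ρ₁ ≤ ‖y‖ → ‖x‖ ^ 2 * g x 0 0 ≤ ‖y‖ ^ 2 * g y 0 0}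

/-- Masses of the rotationally symmetric extensions for which no closed surface contained in
`{|x| ≥ ρ₁}` (rotationally symmetric or not) is an apparent horizon. -/
def noHorizonMasses (m ρ₁ : ℝ) : Set ℝ :=
  {M | ∃ g h : TF, RotExtension m ρ₁ g h ∧ RotMass g h M ∧
    ∀ f : E3 → ℝ, IsApparentHorizon {0} g h f → ∃ x : E3, x ≠ 0 ∧ f x = 0 ∧ ‖x‖ < ρ₁}

end Pool.Agent.Lib.MP_c642b3_mp
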