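import Mathlib
import Pool.Agent.Lib.MP_c642b3_mp.Defs
import Pool.Agent.Lib.MP_c642b3_mp.RotDefs
import Pool.Agent.Lib.MP_c642b3_mp.Main
import Pool.Agent.Lib.MP_c642b3_mp.MassBound

namespace Pool.Agent.Lib.MP_c642b3_mp

open Filter Bornology
open scoped Topology ContDiff

/-- the point `e^t e₀` -/
noncomputable def ray (t : ℝ) : E3 := Real.exp t • EuclideanSpace.single 0 (1 : ℝ)

theorem norm_ray (t : ℝ) : ‖ray t‖ = Real.exp t := by
  unfold ray
  rw [norm_smul, Real.norm_of_nonneg (Real.exp_pos t).le]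
  simp

theorem ray_ne (t : ℝ) : ray t ≠ 0 := by
  rw [← norm_ne_zero_iff, norm_ray]
  exact (Real.exp_pos t).ne'

theorem ray_0 (t : ℝ) : ray t 0 = Real.exp t := by simp [ray]
theorem ray_1 (t : ℝ) : ray t 1 = 0 := by simp [ray]
theorem ray_2 (t : ℝ) : ray t 2 = 0 := by simp [ray]

theorem ray_contDiff : ContDiff ℝ ∞ ray := by
  unfold ray
  exact Real.contDiff_exp.smul contDiff_const

theorem ray_tendsto : Tendsto ray atTop (cobounded E3) := by
  rw [← tendsto_norm_atTop_iff_cobounded]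
  have : (fun t => ‖ray t‖) = Real.exp := funext norm_ray
  rw [this]
  exact Real.tendsto_exp_atTop

/-- Extraction of the profile functions of a rotationally symmetric extension. -/
theorem extract {g h : TF} (hd : IsData {0} g h) (hr : RotSym g h) :
    ∃ w α β : ℝ → ℝ, ContDiff ℝ ∞ w ∧ ContDiff ℝ ∞ α ∧ ContDiff ℝ ∞ β ∧
      ∀ x : E3, x ≠ 0 → g x = gW w x ∧ h x = hW w α β x := by
  obtain ⟨F, B, D, hFBD⟩ := hr
  have hmem : ∀ t, ray t ∈ ({0}ᶜ : Set E3) := fun t => ray_ne t
  have hU : IsOpen ({0}ᶜ : Set E3) := isOpen_compl_singleton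
  set G : ℝ → ℝ := fun t => g (ray t) 0 0 with hG
  have hGc : ContDiff ℝ ∞ G := by
    have h1 := (hd.g_smooth 0 0).comp_contDiff ray_contDiff hmem
    exact h1
  have hGpos : ∀ t, 0 < G t := fun t => by
    have := (hd.g_pos (ray t) (ray_ne t))
    exact this.diag_pos
  have hGF : ∀ t, G t = F (Real.exp t) := fun t => by
    have := (hFBD (ray t) (ray_ne t) 0 0).1
    rw [norm_ray] at this
    simpa [hG] using this
  set w : ℝ → ℝ := fun t => (1 / 2) * Real.log (G t) + t with hw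
  have hwc : ContDiff ℝ ∞ w := (contDiff_const.mul (hGc.log (fun t => (hGpos t).ne'))).add contDiff_id
  set Ar : ℝ → ℝ := fun t => h (ray t) 0 0 with hAr
  set Br : ℝ → ℝ := fun t => h (ray t) 1 1 with hBr
  have hArc : ContDiff ℝ ∞ Ar := (hd.h_smooth 0 0).comp_contDiff ray_contDiff hmem
  have hBrc : ContDiff ℝ ∞ Br := (hd.h_smooth 1 1).comp_contDiff ray_contDiff hmem
  have hAB : ∀ t, Ar t = B (Real.exp t) + D (Real.exp t) * (Real.exp t) ^ 2 := fun t => by
    have := (hFBD (ray t) (ray_ne t) 0 0).2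
    rw [norm_ray, ray_0] at this
    simp only [hAr]
    rw [this]
    simp only [if_true, mul_one]
    ring
  have hBB : ∀ t, Br t = B (Real.exp t) := fun t => by
    have := (hFBD (ray t) (ray_ne t) 1 1).2
    rw [norm_ray, ray_1] at this
    simp only [hBr]
    rw [this]
    simp
  set ex : ℝ → ℝ := fun t => Real.exp (-(w t - 2 * t)) with hex
  have hexc : ContDiff ℝ ∞ ex := (hwc.sub (contDiff_const.mul contDiff_id)).neg.exp
  refine ⟨w, fun t => Ar t * ex t, fun t => Br t * ex t, hwc, hArc.mul hexc, hBrc.mul hexc, ?_⟩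
  intro x hx
  have hρ : 0 < ‖x‖ := norm_pos_iff.mpr hx
  have hexp : Real.exp (Real.log ‖x‖) = ‖x‖ := Real.exp_log hρ
  constructor
  · ext i j
    rw [(hFBD x hx i j).1]
    simp only [gW, cMetric, Matrix.of_apply, dl, hw]
    have h1 : 2 * ((1 / 2) * Real.log (G (Real.log ‖x‖)) + Real.log ‖x‖ - Real.log ‖x‖) =
        Real.log (G (Real.log ‖x‖)) := by ring
    rw [h1, Real.exp_log (hGpos _), hGF, hexp]
  · ext i j
    rw [(hFBD x hx i j).2]
    simp only [hW, radH, Matrix.of_apply, dl]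
    have h1 : ex (Real.log ‖x‖) * Real.exp (w (Real.log ‖x‖) - 2 * Real.log ‖x‖) = 1 := by
      simp only [hex]
      rw [← Real.exp_add]; simp
    have h2 : Ar (Real.log ‖x‖) * ex (Real.log ‖x‖) *
        Real.exp (w (Real.log ‖x‖) - 2 * Real.log ‖x‖) = Ar (Real.log ‖x‖) := by
      rw [mul_assoc, h1, mul_one]
    have h3 : Br (Real.log ‖x‖) * ex (Real.log ‖x‖) *
        Real.exp (w (Real.log ‖x‖) - 2 * Real.log ‖x‖) = Br (Real.log ‖x‖) := by
      rw [mul_assoc, h1, mul_one]
    rw [h2, h3, hAB, hBB, hexp]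
    field_simp
    ring

theorem admFlux_gW {w : ℝ → ℝ} (hw : ContDiff ℝ ∞ w) {x : E3} (hx : x ≠ 0) :
    admFlux (gW w) x = -4 * (deriv w (Real.log ‖x‖) - 1) *
      Real.exp (2 * (w (Real.log ‖x‖) - Real.log ‖x‖)) / ‖x‖ := by
  have hρ : 0 < ‖x‖ := norm_pos_iff.mpr hx
  have hE : (‖x‖ ^ 2)⁻¹ * (x 0 ^ 2 + x 1 ^ 2 + x 2 ^ 2) = 1 := by
    rw [← norm_sq_eq]
    field_simp
  have hwd : Differentiable ℝ w := hw.differentiable (by simp)
  have hψ : Differentiable ℝ (fun t => w t - t) := hwd.sub differentiable_id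
  have hd : deriv (fun t => w t - t) (Real.log ‖x‖) = deriv w (Real.log ‖x‖) - 1 :=
    ((hwd _).hasDerivAt.sub (hasDerivAt_id _)).deriv
  have hp : ∀ a b c : Fin 3, pd a (fun y => gW w y b c) x =
      (2 * (deriv w (Real.log ‖x‖) - 1) * Real.exp (2 * (w (Real.log ‖x‖) - Real.log ‖x‖))) *
        ((‖x‖ ^ 2)⁻¹ * x a) * dl b c := by
    intro a b c
    have h := (hasPD_expmetric hx hψ).mul (hasPD_const (dl b c) x)
    have h2 := HasPD.pd h a
    simp only [mul_zero, add_zero, hd] at h2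
    exact h2
  unfold admFlux
  simp only [hp, Fin.sum_univ_three, dl]
  generalize Real.exp (2 * (w (Real.log ‖x‖) - Real.log ‖x‖)) = e
  generalize deriv w (Real.log ‖x‖) - 1 = q
  generalize (‖x‖ ^ 2)⁻¹ = E at *
  simp
  field_simp
  linear_combination (-4 * q * e) * hE

/-- The Misner–Sharp mass tends to the total mass. -/
theorem MS_tendsto {g h : TF} {w α β : ℝ → ℝ} (hw : ContDiff ℝ ∞ w)
    (hgh : ∀ x : E3, x ≠ 0 → g x = gW w x ∧ h x = hW w α β x) {M : ℝ} (hM : RotMass g h M) :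
    Tendsto (MS w β) atTop (𝓝 M) ∧ Tendsto (deriv w) atTop (𝓝 1) ∧ Tendsto β atTop (𝓝 0) := by
  obtain ⟨c, K, R, hc, hg1, _, hh1, hflux⟩ := hM
  have hU : IsOpen ({0}ᶜ : Set E3) := isOpen_compl_singleton
  have hwd : Differentiable ℝ w := hw.differentiable (by simp)
  -- germ equality of g
  have hgerm : ∀ x : E3, x ≠ 0 → g =ᶠ[𝓝 x] gW w := fun x hx => by
    filter_upwards [hU.mem_nhds hx] with y hy
    exact (hgh y hy).1
  have hfl : ∀ x : E3, x ≠ 0 → admFlux g x = admFlux (gW w) x := fun x hx => by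
    unfold admFlux
    simp only [pd_congr (entry_congr (hgerm x hx) _ _)]
  -- values along the ray
  set e : ℝ → ℝ := fun t => Real.exp (2 * (w t - t)) with he
  have hK0 : ∀ᶠ t in atTop, R ≤ ‖ray t‖ := by
    have := (tendsto_norm_cobounded_atTop.comp ray_tendsto).eventually_ge_atTop R
    exact this
  have he1 : Tendsto e atTop (𝓝 (c ^ 2)) := by
    rw [tendsto_iff_norm_sub_tendsto_zero]
    have hb : Tendsto (fun t : ℝ => K * Real.exp (-t)) atTop (𝓝 0) := by
      have := (Real.tendsto_exp_atBot.comp tendsto_neg_atTop_atBot).const_mul K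
      simpa using this
    refine squeeze_zero' (Eventually.of_forall fun t => norm_nonneg _) ?_ hb
    filter_upwards [hK0] with t ht
    have h1 := hg1 (ray t) ht 0 0
    rw [(hgh _ (ray_ne t)).1, norm_ray] at h1
    simp only [gW, cMetric, Matrix.of_apply, dl, if_true, mul_one, norm_ray, Real.log_exp] at h1
    have h2 : Real.exp t * Real.exp (-t) = 1 := by rw [← Real.exp_add]; simp
    have h3 : 0 < Real.exp (-t) := Real.exp_pos _
    rw [Real.norm_eq_abs]
    calc |e t - c ^ 2| = (Real.exp t * |e t - c ^ 2|) * Real.exp (-t) := by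
          linear_combination (-|e t - c ^ 2|) * h2
      _ ≤ K * Real.exp (-t) := mul_le_mul_of_nonneg_right h1 h3.le
  have hepos : ∀ t, 0 < e t := fun t => Real.exp_pos _
  -- flux
  have hfl1 : Tendsto (fun t => -(Real.exp t * (deriv w t - 1) * e t) / c) atTop (𝓝 M) := by
    have h1 := hflux.comp ray_tendsto
    refine h1.congr (fun t => ?_)
    simp only [Function.comp]
    rw [hfl _ (ray_ne t), admFlux_gW hw (ray_ne t), norm_ray, Real.log_exp]
    simp only [he]
    have : Real.exp t ≠ 0 := (Real.exp_pos t).ne'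
    field_simp
  have hfl2 : Tendsto (fun t => Real.exp t * (deriv w t - 1)) atTop (𝓝 (-(M / c))) := by
    have h1 : Tendsto (fun t => -(Real.exp t * (deriv w t - 1) * e t) / c * (-c) / e t) atTop
        (𝓝 (M * (-c) / c ^ 2)) :=
      (hfl1.mul_const (-c)).div he1 (by positivity)
    have h2 : M * (-c) / c ^ 2 = -(M / c) := by field_simp
    rw [h2] at h1
    refine h1.congr (fun t => ?_)
    have := (hepos t).ne'
    field_simp
  have hexpneg : Tendsto (fun t : ℝ => Real.exp (-t)) atTop (𝓝 0) :=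
    Real.tendsto_exp_atBot.comp tendsto_neg_atTop_atBot
  have hw1' : Tendsto (fun t => deriv w t - 1) atTop (𝓝 0) := by
    have h1 := hfl2.mul hexpneg
    rw [mul_zero] at h1
    refine h1.congr (fun t => ?_)
    have h2 : Real.exp t * Real.exp (-t) = 1 := by rw [← Real.exp_add]; simp
    linear_combination (deriv w t - 1) * h2
  have hw1 : Tendsto (deriv w) atTop (𝓝 1) := by
    have := hw1'.add_const 1
    simpa using this
  -- e^{ψ} → c
  have hes : Tendsto (fun t => Real.exp (w t - t)) atTop (𝓝 c) := by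
    have h1 := (Real.continuous_sqrt.tendsto (c ^ 2)).comp he1
    rw [Real.sqrt_sq hc.le] at h1
    refine h1.congr (fun t => ?_)
    simp only [Function.comp, he]
    rw [two_mul, Real.exp_add, Real.sqrt_mul_self (Real.exp_pos _).le]
  -- β
  have hβb : ∀ᶠ t in atTop, |β t| ≤ K * Real.exp (-t) * (Real.exp (w t - t))⁻¹ := by
    filter_upwards [hK0] with t ht
    have h1 := hh1 (ray t) ht 1 1
    rw [(hgh _ (ray_ne t)).2, norm_ray] at h1
    simp only [hW, radH, Matrix.of_apply, dl, if_true, mul_one, norm_ray, Real.log_exp, ray_1,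
      mul_zero, add_zero] at h1
    rw [abs_mul, abs_of_pos (Real.exp_pos _)] at h1
    have e1 : Real.exp (w t - 2 * t) = Real.exp (w t - t) * Real.exp (-t) := by
      rw [← Real.exp_add]; congr 1; ring
    have e2 : Real.exp t ^ 2 * Real.exp (-t) = Real.exp t := by
      rw [sq, mul_assoc, ← Real.exp_add]; simp
    rw [e1] at h1
    have h2 : |β t| * (Real.exp (w t - t) * Real.exp t) ≤ K := by
      calc |β t| * (Real.exp (w t - t) * Real.exp t)
          = Real.exp t ^ 2 * (|β t| * (Real.exp (w t - t) * Real.exp (-t))) := by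
            linear_combination (-(|β t| * Real.exp (w t - t))) * e2
        _ ≤ K := h1
    have h3 : 0 < Real.exp (w t - t) := Real.exp_pos _
    have h4 : 0 < Real.exp t := Real.exp_pos _
    rw [Real.exp_neg]
    rw [mul_assoc, ← mul_inv, ← div_eq_mul_inv, le_div_iff₀ (by positivity)]
    calc |β t| * (Real.exp t * Real.exp (w t - t)) = |β t| * (Real.exp (w t - t) * Real.exp t) := by ring
      _ ≤ K := h2
  have hub : Tendsto (fun t => K * Real.exp (-t) * (Real.exp (w t - t))⁻¹) atTop (𝓝 0) := by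
    have h1 := (hexpneg.const_mul K).mul (hes.inv₀ hc.ne')
    simpa using h1
  have hβ0 : Tendsto β atTop (𝓝 0) := by
    rw [tendsto_zero_iff_abs_tendsto_zero]
    exact squeeze_zero' (Eventually.of_forall fun t => abs_nonneg _) hβb hub
  have hβ2 : Tendsto (fun t => Real.exp t * β t ^ 2) atTop (𝓝 0) := by
    have hub2 : Tendsto (fun t => K ^ 2 * Real.exp (-t) * ((Real.exp (w t - t))⁻¹) ^ 2) atTop
        (𝓝 0) := by
      have h1 := (hexpneg.const_mul (K ^ 2)).mul ((hes.inv₀ hc.ne').pow 2)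
      simpa using h1
    refine squeeze_zero' (Eventually.of_forall fun t => by positivity) ?_ hub2
    filter_upwards [hβb] with t ht
    have h1 : β t ^ 2 ≤ (K * Real.exp (-t) * (Real.exp (w t - t))⁻¹) ^ 2 := by
      rw [← sq_abs]
      exact pow_le_pow_left₀ (abs_nonneg _) ht 2
    have h2 : Real.exp t * Real.exp (-t) = 1 := by rw [← Real.exp_add]; simp
    calc Real.exp t * β t ^ 2 ≤ Real.exp t * (K * Real.exp (-t) * (Real.exp (w t - t))⁻¹) ^ 2 :=
          mul_le_mul_of_nonneg_left h1 (Real.exp_pos _).le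
      _ = K ^ 2 * Real.exp (-t) * ((Real.exp (w t - t))⁻¹) ^ 2 := by
          linear_combination (K ^ 2 * Real.exp (-t) * ((Real.exp (w t - t))⁻¹) ^ 2) * h2
  refine ⟨?_, hw1, hβ0⟩
  have h1 : Tendsto (fun t => Real.exp (w t - t) / 2 *
      (-(Real.exp t * (deriv w t - 1)) * (2 + (deriv w t - 1)) + Real.exp t * β t ^ 2)) atTop
      (𝓝 (c / 2 * (-(-(M / c)) * (2 + 0) + 0))) :=
    (hes.div_const 2).mul ((hfl2.neg.mul (hw1'.const_add 2)).add hβ2)
  have h2 : c / 2 * (-(-(M / c)) * (2 + 0) + 0) = M := by field_simp; ring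
  rw [h2] at h1
  refine h1.congr (fun t => ?_)
  unfold MS
  have h3 : Real.exp (w t) = Real.exp (w t - t) * Real.exp t := by
    rw [← Real.exp_add]; congr 1; ring
  rw [h3]
  ring

/-! ### the lower bound -/

/-- log-radius profile of the mass `m` Schwarzschild slice -/
noncomputable def wS (m : ℝ) (t : ℝ) : ℝ :=
  Real.log (2 * m) + 2 * Real.log (Real.cosh ((t - Real.log (m / 2)) / 2))

theorem wS_hasDerivAt (m t : ℝ) : HasDerivAt (wS m) (th (t - Real.log (m / 2))) t := by
  have h1 := (logcosh_hasDerivAt (t - Real.log (m / 2))).comp t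
    ((hasDerivAt_id t).sub_const (Real.log (m / 2)))
  rw [mul_one] at h1
  exact h1.const_add (Real.log (2 * m))

theorem wS_contDiff (m : ℝ) : ContDiff ℝ ∞ (wS m) :=
  contDiff_const.add (logcosh_contDiff.comp (contDiff_id.sub contDiff_const))

theorem gW_wS {m : ℝ} (hm : 0 < m) {x : E3} (hx : x ≠ 0) : gW (wS m) x = schw m x := by
  have h3 := gW_eq (w := wS m) (c := Real.log (m / 2)) hm hx rfl
  have h4 : m / 2 * Real.exp (-Real.log (m / 2)) = 1 := by
    rw [Real.exp_neg, Real.exp_log (by positivity)]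
    field_simp
  rw [h4] at h3
  simpa using h3

/-- area radius of the sphere `|x| = ρ` from the metric -/
theorem area_gW {w : ℝ → ℝ} {x : E3} (hx : x ≠ 0) :
    ‖x‖ ^ 2 * gW w x 0 0 = Real.exp (w (Real.log ‖x‖)) ^ 2 := by
  have hρ : 0 < ‖x‖ := norm_pos_iff.mpr hx
  simp only [gW, cMetric, Matrix.of_apply, dl, if_true, mul_one]
  conv_lhs => rw [← Real.exp_log hρ, Real.log_exp]
  rw [← Real.exp_nat_mul, ← Real.exp_nat_mul, ← Real.exp_add]
  congr 1
  push_cast; ring

theorem rot_lower {m ρ₁ M : ℝ} (hm : 0 < m) (hρ : m / 2 < ρ₁) {g h : TF}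
    (hext : RotExtension m ρ₁ g h) (hM : RotMass g h M) :
    m ≤ M ∨ ∃ y : E3, ρ₁ ≤ ‖y‖ ∧ Real.sqrt (‖y‖ ^ 2 * g y 0 0) / 2 ≤ M ∧
      0 < ‖y‖ ^ 2 * g y 0 0 := by
  have hρ₁ : 0 < ρ₁ := by linarith
  obtain ⟨w, α, β, hw, hα, hβ, hgh⟩ := extract hext.data hext.rot
  obtain ⟨hMS, hw1, hβ0⟩ := MS_tendsto hw hgh hM
  have hU : IsOpen ({0}ᶜ : Set E3) := isOpen_compl_singleton
  have hdec : ∀ t, 2 * |deriv w t * α t - deriv β t| ≤
        1 - deriv w t ^ 2 - 2 * deriv (deriv w) t + β t ^ 2 + 2 * α t * β t := by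
    intro t
    have h1 := hext.data.dec (ray t) (ray_ne t)
    have e1 : g =ᶠ[𝓝 (ray t)] gW w := by
      filter_upwards [hU.mem_nhds (ray_ne t)] with y hy
      exact (hgh y hy).1
    have e2 : h =ᶠ[𝓝 (ray t)] hW w α β := by
      filter_upwards [hU.mem_nhds (ray_ne t)] with y hy
      exact (hgh y hy).2
    rw [DEC_congr e1 e2, DEC_gW hw hα hβ (ray_ne t), norm_ray, Real.log_exp] at h1
    exact h1
  rcases MS_lower w α β hw hβ (Real.log ρ₁) M hdec hMS hw1 hβ0 with h1 | ⟨s, hs, h1⟩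
  · left
    -- `w = wS m` and `β = 0` on `(-∞, log ρ₁]`
    have hwl : ∀ t ≤ Real.log ρ₁, w t = wS m t := by
      intro t ht
      have hle : ‖ray t‖ ≤ ρ₁ := by
        rw [norm_ray, ← Real.exp_log hρ₁]; exact Real.exp_le_exp.mpr ht
      have e1 := (hext.inner (ray t) (ray_ne t) hle).1
      rw [(hgh _ (ray_ne t)).1, ← gW_wS hm (ray_ne t)] at e1
      have e2 := congrFun (congrFun e1 0) 0
      simp only [gW, cMetric, Matrix.of_apply, dl, if_true, mul_one, norm_ray, Real.log_exp] at e2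
      have e3 := Real.exp_injective e2
      linarith
    have hβl : ∀ t ≤ Real.log ρ₁, β t = 0 := by
      intro t ht
      have hle : ‖ray t‖ ≤ ρ₁ := by
        rw [norm_ray, ← Real.exp_log hρ₁]; exact Real.exp_le_exp.mpr ht
      have e1 := (hext.inner (ray t) (ray_ne t) hle).2
      rw [(hgh _ (ray_ne t)).2] at e1
      have e2 := congrFun (congrFun e1 1) 1
      simp only [hW, radH, Matrix.of_apply, dl, if_true, mul_one, norm_ray, Real.log_exp, ray_1,
        mul_zero, add_zero, Matrix.zero_apply, mul_eq_zero] at e2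
      rcases e2 with h | h
      · exact h
      · exact absurd h (Real.exp_pos _).ne'
    -- derivative at the end point from the left
    have hdw : deriv w (Real.log ρ₁) = th (Real.log ρ₁ - Real.log (m / 2)) := by
      have hd1 : HasDerivWithinAt w (deriv w (Real.log ρ₁)) (Set.Iic (Real.log ρ₁)) (Real.log ρ₁) :=
        ((hw.differentiable (by simp)) _).hasDerivAt.hasDerivWithinAt
      have hd2 : HasDerivWithinAt w (th (Real.log ρ₁ - Real.log (m / 2)))
          (Set.Iic (Real.log ρ₁)) (Real.log ρ₁) :=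
        ((wS_hasDerivAt m _).hasDerivWithinAt).congr (fun t ht => hwl t ht) (hwl _ le_rfl)
      exact (uniqueDiffWithinAt_Iic _).eq_deriv _ hd1 hd2
    have hms : MS w β (Real.log ρ₁) = m := by
      unfold MS
      rw [hdw, hβl _ le_rfl, hwl _ le_rfl, wS]
      have hch : 0 < Real.cosh ((Real.log ρ₁ - Real.log (m / 2)) / 2) := Real.cosh_pos _
      rw [Real.exp_add, Real.exp_log (by positivity), two_mul (Real.log _), Real.exp_add,
        Real.exp_log hch]
      unfold th
      have h5 := Real.cosh_sq ((Real.log ρ₁ - Real.log (m / 2)) / 2)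
      field_simp
      linear_combination (1 : ℝ) * h5
    rw [hms] at h1
    exact h1
  · right
    refine ⟨ray s, ?_, ?_, ?_⟩
    · rw [norm_ray, ← Real.exp_log hρ₁]; exact Real.exp_le_exp.mpr hs
    · rw [(hgh _ (ray_ne s)).1, area_gW (ray_ne s), norm_ray, Real.log_exp,
        Real.sqrt_sq (Real.exp_pos _).le]
      exact h1
    · rw [(hgh _ (ray_ne s)).1, area_gW (ray_ne s)]
      positivity

/-- Every rotationally symmetric extension has positive mass. -/
theorem rot_pos {m ρ₁ M : ℝ} (hm : 0 < m) (hρ : m / 2 < ρ₁) {g h : TF}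
    (hext : RotExtension m ρ₁ g h) (hM : RotMass g h M) : 0 < M := by
  rcases rot_lower hm hρ hext hM with h1 | ⟨y, _, h2, h3⟩
  · linarith
  · have := Real.sqrt_pos.mpr h3
    linarith

theorem schw_area {m : ℝ} {x : E3} (hx : x ≠ 0) :
    ‖x‖ ^ 2 * schw m x 0 0 = (‖x‖ + m + m ^ 2 / (4 * ‖x‖)) ^ 2 := by
  have hρ : 0 < ‖x‖ := norm_pos_iff.mpr hx
  simp only [schw, Matrix.smul_apply, Matrix.one_apply_eq, smul_eq_mul, mul_one]
  field_simp
  ring

/-- Outer-minimizing rotationally symmetric extensions have mass at least `m`. -/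
theorem rot_outer_lower {m ρ₁ M : ℝ} (hm : 0 < m) (hρ : m / 2 < ρ₁) {g h : TF}
    (hext : RotExtension m ρ₁ g h) (hM : RotMass g h M)
    (hout : ∀ x y : E3, ‖x‖ = ρ₁ → ρ₁ ≤ ‖y‖ → ‖x‖ ^ 2 * g x 0 0 ≤ ‖y‖ ^ 2 * g y 0 0) : m ≤ M := by
  have hρ₁ : 0 < ρ₁ := by linarith
  rcases rot_lower hm hρ hext hM with h1 | ⟨y, hy, h2, _⟩
  · exact h1
  · have hx : ‖ray (Real.log ρ₁)‖ = ρ₁ := by rw [norm_ray, Real.exp_log hρ₁]
    have h3 := hout _ y hx hy
    rw [(hext.inner _ (ray_ne _) hx.le).1, schw_area (ray_ne _), hx] at h3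
    have h4 : ρ₁ + m + m ^ 2 / (4 * ρ₁) ≤ Real.sqrt (‖y‖ ^ 2 * g y 0 0) := by
      apply Real.le_sqrt_of_sq_le
      exact h3
    have h5 : 2 * m ≤ ρ₁ + m + m ^ 2 / (4 * ρ₁) := by
      have h6 : ρ₁ + m + m ^ 2 / (4 * ρ₁) - 2 * m = (2 * ρ₁ - m) ^ 2 / (4 * ρ₁) := by
        field_simp; ring
      have h7 : 0 ≤ (2 * ρ₁ - m) ^ 2 / (4 * ρ₁) := by positivity
      linarith
    linarith

end Pool.Agent.Lib.MP_c642b3_mp
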