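import Mathlib
import Pool.Agent.Lib.MP_c642b3_mp.Defs
import Pool.Agent.Lib.MP_c642b3_mp.RotDefs
import Pool.Agent.Lib.MP_c642b3_mp.Rot

namespace Pool.Agent.Lib.MP_c642b3_mp

open Filter Bornology
open scoped Topology ContDiff

/-- A metric which is exactly Schwarzschild near infinity has that total mass. -/
theorem rotMass_of_schw {g h : TF} {M : ℝ} (hM : 0 < M) (hS : SchwarzschildEnd g h M) :
    RotMass g h M := by
  obtain ⟨c, hc, R, hR⟩ := hS
  set μ : ℝ := M / (2 * c) with hμ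
  have hμ0 : 0 < μ := by positivity
  -- the metric near infinity
  have hval : ∀ x : E3, R ≤ ‖x‖ → 0 < ‖x‖ → ∀ i j : Fin 3,
      g x i j = c ^ 2 * (1 + μ / ‖x‖) ^ 4 * dl i j := by
    intro x hx hpos i j
    rw [(hR x hx).1]
    simp only [schw, Matrix.smul_apply, smul_eq_mul, norm_smul, Matrix.one_apply, dl,
      Real.norm_of_nonneg hc.le]
    have : M / (2 * (c * ‖x‖)) = μ / ‖x‖ := by rw [hμ]; field_simp
    rw [this]
    ring
  set R1 : ℝ := max (R + 1) 1 with hR1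
  have hR1R : ∀ x : E3, R1 ≤ ‖x‖ → R < ‖x‖ ∧ 1 ≤ ‖x‖ := fun x hx =>
    ⟨by have := le_max_left (R + 1) 1; linarith, le_trans (le_max_right _ _) hx⟩
  have hpd : ∀ x : E3, R1 ≤ ‖x‖ → ∀ i j k : Fin 3, pd k (fun y => g y i j) x =
      (c ^ 2 * (4 * (1 + μ / ‖x‖) ^ 3 * (-(μ / ‖x‖)))) * ((‖x‖ ^ 2)⁻¹ * x k) * dl i j := by
    intro x hx i j k
    obtain ⟨h1, h2⟩ := hR1R x hx
    have hρ : 0 < ‖x‖ := by linarith
    have hx0 : x ≠ 0 := norm_pos_iff.mp hρ
    have hD : HasDerivAt (fun t : ℝ => c ^ 2 * (1 + μ * Real.exp (-t)) ^ 4)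
        (c ^ 2 * (4 * (1 + μ * Real.exp (-(Real.log ‖x‖))) ^ 3 *
          (-(μ * Real.exp (-(Real.log ‖x‖)))))) (Real.log ‖x‖) := by
      have e1 : HasDerivAt (fun t : ℝ => 1 + μ * Real.exp (-t))
          (-(μ * Real.exp (-(Real.log ‖x‖)))) (Real.log ‖x‖) := by
        have := ((((hasDerivAt_id (Real.log ‖x‖)).neg).exp).const_mul μ).const_add 1
        refine this.congr_deriv ?_
        simp
      have := (e1.pow 4).const_mul (c ^ 2)
      refine this.congr_deriv ?_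
      norm_num
    have hrad := (hasPD_rad hx0 hD).mul (hasPD_const (dl i j) x)
    have hev : (fun y => g y i j) =ᶠ[𝓝 x]
        (fun y => c ^ 2 * (1 + μ * Real.exp (-(Real.log ‖y‖))) ^ 4 * dl i j) := by
      have ho : ∀ᶠ y : E3 in 𝓝 x, R < ‖y‖ ∧ 0 < ‖y‖ :=
        ((isOpen_lt continuous_const continuous_norm).inter
          (isOpen_lt continuous_const continuous_norm)).eventually_mem ⟨h1, hρ⟩
      filter_upwards [ho] with y hy
      rw [hval y hy.1.le hy.2, Real.exp_neg, Real.exp_log hy.2, div_eq_mul_inv]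
    have h3 := (hrad.congr hev).pd k
    rw [h3]
    simp only [mul_zero, add_zero]
    rw [Real.exp_neg, Real.exp_log hρ, ← div_eq_mul_inv]
  -- bounds
  have hbound : ∀ x : E3, R1 ≤ ‖x‖ → 0 < μ / ‖x‖ ∧ μ / ‖x‖ ≤ μ := fun x hx => by
    obtain ⟨_, h2⟩ := hR1R x hx
    have hρ : 0 < ‖x‖ := by linarith
    refine ⟨by positivity, ?_⟩
    rw [div_le_iff₀ hρ]
    nlinarith
  set K : ℝ := c ^ 2 * (4 * μ * (1 + μ) ^ 3) with hK
  have hK0 : 0 < K := by positivity
  refine ⟨c, K, R1, hc, ?_, ?_, ?_, ?_⟩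
  · intro x hx i j
    obtain ⟨h1, h2⟩ := hR1R x hx
    have hρ : 0 < ‖x‖ := by linarith
    obtain ⟨hb0, hb1⟩ := hbound x hx
    rw [hval x h1.le hρ]
    unfold dl
    split_ifs with hij
    · rw [mul_one, mul_one]
      have e1 : c ^ 2 * (1 + μ / ‖x‖) ^ 4 - c ^ 2 =
          c ^ 2 * ((μ / ‖x‖) * (4 + 6 * (μ / ‖x‖) + 4 * (μ / ‖x‖) ^ 2 + (μ / ‖x‖) ^ 3)) := by
        ring
      rw [e1, abs_of_pos (by positivity)]
      set q := μ / ‖x‖ with hq
      have hqμ : ‖x‖ * q = μ := by rw [hq]; field_simp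
      calc ‖x‖ * (c ^ 2 * (q * (4 + 6 * q + 4 * q ^ 2 + q ^ 3)))
          = c ^ 2 * (μ * (4 + 6 * q + 4 * q ^ 2 + q ^ 3)) := by
            rw [← hqμ]; ring
        _ ≤ c ^ 2 * (μ * (4 * (1 + μ) ^ 3)) := by
            apply mul_le_mul_of_nonneg_left _ (by positivity)
            apply mul_le_mul_of_nonneg_left _ hμ0.le
            have h3 : q ^ 2 ≤ μ ^ 2 := pow_le_pow_left₀ hb0.le hb1 2
            have h4 : q ^ 3 ≤ μ ^ 3 := pow_le_pow_left₀ hb0.le hb1 3
            nlinarith [pow_pos hμ0 2, pow_pos hμ0 3]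
        _ = K := by rw [hK]; ring
    · simp
      exact hK0.le
  · intro x hx i j k
    obtain ⟨h1, h2⟩ := hR1R x hx
    have hρ : 0 < ‖x‖ := by linarith
    obtain ⟨hb0, hb1⟩ := hbound x hx
    rw [hpd x hx]
    have hxk : |x k| ≤ ‖x‖ := by
      have := PiLp.norm_apply_le x k
      rwa [Real.norm_eq_abs] at this
    have hdl : |dl i j| ≤ 1 := by unfold dl; split_ifs <;> simp
    have e0 : |c ^ 2 * (4 * (1 + μ / ‖x‖) ^ 3 * (-(μ / ‖x‖))) * ((‖x‖ ^ 2)⁻¹ * x k) * dl i j| =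
        |c ^ 2 * (4 * (1 + μ / ‖x‖) ^ 3 * (-(μ / ‖x‖)))| * ((‖x‖ ^ 2)⁻¹ * |x k|) * |dl i j| := by
      have h0 : |(‖x‖ ^ 2)⁻¹| = (‖x‖ ^ 2)⁻¹ := abs_of_pos (by positivity)
      rw [abs_mul (_ * _) (dl i j), abs_mul _ ((‖x‖ ^ 2)⁻¹ * x k), abs_mul ((‖x‖ ^ 2)⁻¹) (x k), h0]
    rw [e0]
    have e1 : |c ^ 2 * (4 * (1 + μ / ‖x‖) ^ 3 * (-(μ / ‖x‖)))| =
        c ^ 2 * (4 * (1 + μ / ‖x‖) ^ 3 * (μ / ‖x‖)) := by
      rw [← abs_neg, abs_of_pos]
      · ring
      · have : 0 < c ^ 2 * (4 * (1 + μ / ‖x‖) ^ 3 * (μ / ‖x‖)) := by positivity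
        linarith
    rw [e1]
    have h3 : (1 + μ / ‖x‖) ^ 3 ≤ (1 + μ) ^ 3 :=
      pow_le_pow_left₀ (by positivity) (by linarith) 3
    calc ‖x‖ ^ 2 * (c ^ 2 * (4 * (1 + μ / ‖x‖) ^ 3 * (μ / ‖x‖)) * ((‖x‖ ^ 2)⁻¹ * |x k|) * |dl i j|)
        ≤ ‖x‖ ^ 2 * (c ^ 2 * (4 * (1 + μ) ^ 3 * (μ / ‖x‖)) * ((‖x‖ ^ 2)⁻¹ * ‖x‖) * 1) := by
          gcongr
      _ = K := by rw [hK]; field_simp
  · intro x hx i j
    obtain ⟨h1, _⟩ := hR1R x hx
    rw [(hR x h1.le).2]
    simp
    exact hK0.le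
  · -- flux
    have hlim : Tendsto (fun x : E3 => M * (1 + μ / ‖x‖) ^ 3) (cobounded E3) (𝓝 M) := by
      have h1 : Tendsto (fun x : E3 => μ / ‖x‖) (cobounded E3) (𝓝 0) :=
        tendsto_const_nhds.div_atTop tendsto_norm_cobounded_atTop
      have h2 := ((h1.const_add 1).pow 3).const_mul M
      simpa using h2
    refine hlim.congr' ?_
    have hev : ∀ᶠ x : E3 in cobounded E3, R1 ≤ ‖x‖ :=
      tendsto_norm_cobounded_atTop.eventually_ge_atTop R1
    filter_upwards [hev] with x hx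
    obtain ⟨h1, h2⟩ := hR1R x hx
    have hρ : 0 < ‖x‖ := by linarith
    have hE : (‖x‖ ^ 2)⁻¹ * (x 0 ^ 2 + x 1 ^ 2 + x 2 ^ 2) = 1 := by
      rw [← norm_sq_eq]
      field_simp
    have hfl : admFlux g x = 8 * c ^ 2 * (1 + μ / ‖x‖) ^ 3 * (μ / ‖x‖) / ‖x‖ := by
      unfold admFlux
      simp only [hpd x hx, Fin.sum_univ_three, dl]
      generalize (1 + μ / ‖x‖) ^ 3 = q
      generalize μ / ‖x‖ = q1
      generalize (‖x‖ ^ 2)⁻¹ = E at *
      simp
      field_simp
      linear_combination (8 * q * q1) * hE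
    rw [hfl]
    have e1 : M = 2 * c * μ := by rw [hμ]; field_simp
    rw [e1]
    field_simp
    ring

theorem schw_isData {m : ℝ} (hm : 0 < m) : IsData {0} (schw m) 0 := by
  have hU : IsOpen ({0}ᶜ : Set E3) := isOpen_compl_singleton
  have hgerm : ∀ x : E3, x ≠ 0 → schw m =ᶠ[𝓝 x] gW (wS m) := fun x hx => by
    filter_upwards [hU.mem_nhds hx] with y hy
    exact (gW_wS hm hy).symm
  refine ⟨?_, ?_, ?_, ?_, ?_⟩
  · intro i j x hx
    exact ((gW_smooth (wS_contDiff m) hx i j).congr_of_eventuallyEq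
      (entry_congr (hgerm x hx) i j)).contDiffWithinAt
  · intro i j
    exact contDiffOn_const
  · intro x hx
    have hρ : 0 < ‖x‖ := norm_pos_iff.mpr hx
    exact Matrix.PosDef.one.smul (by positivity)
  · intro x _
    exact Matrix.isSymm_zero
  · intro x hx
    have e0 : (0 : TF) =ᶠ[𝓝 x] hW (wS m) (fun _ => 0) (fun _ => 0) := by
      refine Eventually.of_forall (fun y => ?_)
      exact (hW_zero (w := wS m) (β := fun _ => 0) rfl).symm
    rw [DEC_congr (hgerm x hx) e0, DEC_gW (wS_contDiff m) contDiff_const contDiff_const hx]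
    have h1 : deriv (wS m) = fun t => th (t - Real.log (m / 2)) :=
      funext (fun t => (wS_hasDerivAt m t).deriv)
    have h2 : ∀ t, deriv (deriv (wS m)) t = (1 - th (t - Real.log (m / 2)) ^ 2) / 2 := fun t => by
      rw [h1]
      have := (th_hasDerivAt (t - Real.log (m / 2))).comp t
        ((hasDerivAt_id t).sub_const (Real.log (m / 2)))
      rw [mul_one] at this
      exact this.deriv
    rw [h2, h1]
    simp
    linarith

theorem schw_end (m : ℝ) : SchwarzschildEnd (schw m) 0 m :=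
  ⟨1, one_pos, 0, fun x _ => by simp⟩

theorem schw_rot (m : ℝ) : RotSym (schw m) 0 := by
  refine ⟨fun r => (1 + m / (2 * r)) ^ 4, fun _ => 0, fun _ => 0, fun x _ i j => ?_⟩
  simp [schw, Matrix.one_apply]

theorem schw_area_mono {m ρ₁ : ℝ} (hm : 0 < m) (hρ : m / 2 < ρ₁) :
    ∀ x y : E3, ‖x‖ = ρ₁ → ρ₁ ≤ ‖y‖ → ‖x‖ ^ 2 * schw m x 0 0 ≤ ‖y‖ ^ 2 * schw m y 0 0 := by
  intro x y hx hy
  have hρ₁ : 0 < ρ₁ := by linarith
  have hx0 : x ≠ 0 := norm_pos_iff.mp (by rw [hx]; exact hρ₁)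
  have hy0 : y ≠ 0 := norm_pos_iff.mp (by linarith)
  rw [schw_area hx0, schw_area hy0, hx]
  have hyp : 0 < ‖y‖ := by linarith
  apply pow_le_pow_left₀ (by positivity)
  have h1 : ‖y‖ + m + m ^ 2 / (4 * ‖y‖) - (ρ₁ + m + m ^ 2 / (4 * ρ₁)) =
      (‖y‖ - ρ₁) * (4 * ρ₁ * ‖y‖ - m ^ 2) / (4 * ρ₁ * ‖y‖) := by
    field_simp; ring
  have h2 : 0 ≤ (‖y‖ - ρ₁) * (4 * ρ₁ * ‖y‖ - m ^ 2) / (4 * ρ₁ * ‖y‖) := by
    apply div_nonneg _ (by positivity)
    apply mul_nonneg (by linarith)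
    nlinarith
  linarith

/-- `m` is the least mass of a rotationally symmetric outer-minimizing extension. -/
theorem outerMasses_least {m ρ₁ : ℝ} (hm : 0 < m) (hρ : m / 2 < ρ₁) :
    IsLeast (outerMasses m ρ₁) m := by
  constructor
  · exact ⟨schw m, 0, ⟨schw_isData hm, schw_rot m, fun x _ _ => ⟨rfl, rfl⟩⟩,
      rotMass_of_schw hm (schw_end m), schw_area_mono hm hρ⟩
  · rintro M ⟨g, h, hext, hM, hout⟩
    exact rot_outer_lower hm hρ hext hM hout

/-- `0` is the infimum of the masses of the rotationally symmetric extensions without apparent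
horizons. -/
theorem noHorizonMasses_inf {m ρ₁ : ℝ} (hm : 0 < m) (hρ : m / 2 < ρ₁) :
    IsGLB (noHorizonMasses m ρ₁) 0 := by
  have hρ₁ : 0 < ρ₁ := by linarith
  constructor
  · rintro M ⟨g, h, hext, hM, _⟩
    exact (rot_pos hm hρ hext hM).le
  · intro b hb
    by_contra hcon
    rw [not_le] at hcon
    set ρ₀ := (m / 2 + ρ₁) / 2 with hρ₀
    obtain ⟨g, h, M, hdata, hin, hend, hM0, hMb, hhor, w, β, hwβ⟩ :=
      small_mass_extension' {0} isClosed_singleton m ρ₀ ρ₁ b hm (by rw [hρ₀]; linarith)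
        (by rw [hρ₀]; linarith) hcon (by
          intro x hx
          rw [Set.mem_singleton_iff] at hx
          rw [hx, norm_zero, hρ₀]
          linarith) (schw m) 0 (schw_isData hm) (fun x _ => ⟨rfl, rfl⟩)
    have hmem : M ∈ noHorizonMasses m ρ₁ := by
      refine ⟨g, h, ⟨hdata, ?_, fun x _ hx => ?_⟩, rotMass_of_schw hM0 hend, ?_⟩
      · refine ⟨fun r => if r ≤ ρ₁ then (1 + m / (2 * r)) ^ 4 else
            Real.exp (2 * (w (Real.log r) - Real.log r)),
          fun r => if r ≤ ρ₁ then 0 else β (Real.log r) * Real.exp (w (Real.log r) - 2 * Real.log r),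
          fun r => if r ≤ ρ₁ then 0 else
            -(β (Real.log r) * Real.exp (w (Real.log r) - 2 * Real.log r)) * (r ^ 2)⁻¹, ?_⟩
        intro x hx i j
        by_cases hle : ‖x‖ ≤ ρ₁
        · simp only [if_pos hle]
          rw [(hin x hle).1, (hin x hle).2]
          simp [schw, Matrix.one_apply]
        · simp only [if_neg hle]
          rw [(hwβ x (not_le.mp hle)).1, (hwβ x (not_le.mp hle)).2]
          constructor
          · simp [gW, cMetric, dl]
          · simp only [hW, radH, Matrix.of_apply, dl]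
            ring
      · exact hin x hx
      · intro f hf
        by_contra hno
        push Not at hno
        -- a surface point exists since f < 0 near 0 and f > 0 near infinity
        have hlt : ∀ x : E3, x ≠ 0 → f x = 0 → False := by
          intro x hx hfx
          have h1 := hhor f hf x hx hfx
          have h2 := hno x hx hfx
          have h3 : ρ₀ < ρ₁ := by rw [hρ₀]; linarith
          linarith
        obtain ⟨hsurf, _⟩ := hf
        obtain ⟨V, hVo, hV0, hVneg⟩ := hsurf.inside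
        obtain ⟨R, hR⟩ := hsurf.outside
        -- along the ray `t ↦ ray t`
        have hcont : Continuous (fun t => f (ray t)) := by
          have h1 : ContinuousOn f ({0}ᶜ : Set E3) := hsurf.smooth.continuousOn
          exact h1.comp_continuous ray_contDiff.continuous (fun t => ray_ne t)
        have hneg : ∃ a, f (ray a) < 0 := by
          have h0 : (0 : E3) ∈ V := hV0 rfl
          have hlim : Tendsto ray atBot (𝓝 0) := by
            rw [tendsto_zero_iff_norm_tendsto_zero]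
            have : (fun t => ‖ray t‖) = Real.exp := funext norm_ray
            rw [this]
            exact Real.tendsto_exp_atBot
          obtain ⟨a, ha⟩ := (hlim.eventually (hVo.mem_nhds h0)).exists
          exact ⟨a, hVneg _ ha (ray_ne a)⟩
        have hpos : ∃ b', ∀ t ≥ b', 0 < f (ray t) := by
          have h1 : ∀ᶠ t in atTop, R < ‖ray t‖ :=
            (tendsto_norm_cobounded_atTop.comp ray_tendsto).eventually_gt_atTop R
          obtain ⟨b', hb'⟩ := eventually_atTop.mp h1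
          exact ⟨b', fun t ht => hR _ (hb' t ht)⟩
        obtain ⟨a, ha⟩ := hneg
        obtain ⟨b', hb'⟩ := hpos
        have hivt := intermediate_value_Icc (le_max_left a b') hcont.continuousOn
        obtain ⟨s, _, hs0⟩ := hivt ⟨ha.le, (hb' _ (le_max_right _ _)).le⟩
        exact hlt _ (ray_ne s) hs0
    have := hb hmem
    linarith

end Pool.Agent.Lib.MP_c642b3_mp
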